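import Pool.Agent.Lib.Pe46137P.Core
import Pool.Agent.Lib.Pe46137P.Defs
import Pool.Agent.Lib.Pe46137X.Defs

/-!
The dimension bound for topologically sorted digraphs: all arcs go from smaller to larger vertices,
`s` is the first and `t` the last vertex.  Span programs over every field.
-/

namespace Pool.Agent.Lib.Pe46137Y

open Finset Pool.Agent.Lib.Pe46137 Pool.Agent.Lib.Pe46137P Pool.Agent.Lib.Pe46137X

/-- all arcs go from a smaller to a larger vertex -/
def Sorted {n : ℕ} (G : Set (Fin n × Fin n)) : Prop := ∀ e ∈ G, e.1 < e.2

namespace SortedAux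

variable {p l : ℕ}

/-- the inner vertex with number `i` -/
def inner (i : Fin p) : Fin (p + 2) := ⟨i + 1, by omega⟩

/-- the vertex number `r` of the path -/
def vert (P : Fin l ↪o Fin p) (r : ℕ) : Fin (p + 2) :=
  if r = 0 then 0 else if h : r - 1 < l then inner (P ⟨r - 1, h⟩) else Fin.last (p + 1)

/-- the digraph of the path -/
def pathG (P : Fin l ↪o Fin p) : Set (Fin (p + 2) × Fin (p + 2)) :=
  {e | ∃ r ≤ l, e = (vert P r, vert P (r + 1))}

/-- the source side -/
def Side (y : Finset (Fin p)) (v : Fin (p + 2)) : Prop := v = 0 ∨ ∃ i ∈ y, v = inner i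

/-- the digraph of a cut: all sorted arcs that do not leave the source side -/
def cutG (y : Finset (Fin p)) : Set (Fin (p + 2) × Fin (p + 2)) :=
  {e | e.1 < e.2 ∧ ¬ (Side y e.1 ∧ ¬ Side y e.2)}

theorem inner_inj {i j : Fin p} (h : inner i = inner j) : i = j := by
  have := congrArg Fin.val h
  simp only [inner] at this
  exact Fin.ext (by omega)

theorem vert_lt (P : Fin l ↪o Fin p) {r : ℕ} (hr : r ≤ l) : vert P r < vert P (r + 1) := by
  rw [Fin.lt_def]
  unfold vert
  by_cases h0 : r = 0
  · subst h0
    simp only [if_true, zero_add, Nat.one_ne_zero, if_false]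
    split_ifs with h
    · simp [inner]
    · simp
  · rw [if_neg h0, if_neg (by omega), dif_pos (show r - 1 < l by omega)]
    split_ifs with h
    · simp only [inner, Nat.add_sub_cancel]
      have : P ⟨r - 1, by omega⟩ < P ⟨r, by omega⟩ := P.strictMono (by
        rw [Fin.lt_def]; simp only; omega)
      rw [Fin.lt_def] at this
      omega
    · simp only [inner, Fin.val_last]
      have := (P ⟨r - 1, by omega⟩).2
      omega

theorem sorted_pathG (P : Fin l ↪o Fin p) : Sorted (pathG P) := by
  rintro e ⟨r, hr, rfl⟩
  exact vert_lt P hr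

theorem sorted_cutG (y : Finset (Fin p)) : Sorted (cutG y) := fun _ h => h.1

theorem within_pathG (P : Fin l ↪o Fin p) : Within (pathG P) 0 (Fin.last (p + 1)) (l + 1) := by
  refine ⟨l + 1, le_rfl, vert P, by simp [vert], ?_, fun j hj => ⟨j, by omega, rfl⟩⟩
  unfold vert
  rw [if_neg (by omega), dif_neg (by omega)]

theorem not_reachable_cutG (y : Finset (Fin p)) :
    ¬ Reachable (cutG y) 0 (Fin.last (p + 1)) := by
  intro h
  have key : ∀ v, Reachable (cutG y) 0 v → Side y v := by
    intro v hv
    unfold Reachable at hv
    induction hv with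
    | refl => exact Or.inl rfl
    | tail _ h1 ih =>
      by_contra hc
      exact h1.2 ⟨ih, hc⟩
  rcases key _ h with h1 | ⟨i, _, h1⟩
  · have := congrArg Fin.val h1
    simp at this
  · have := congrArg Fin.val h1
    simp only [inner, Fin.val_last] at this
    have := i.2
    omega

theorem crosses_iff (P : Fin l ↪o Fin p) (y : Finset (Fin p)) {r : ℕ} (hr : r ≤ l) :
    Crosses r (pull P.toEmbedding y) ↔ Side y (vert P r) ∧ ¬ Side y (vert P (r + 1)) := by
  have hside : ∀ i : Fin p, Side y (inner i) ↔ i ∈ y := by
    intro i
    constructor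
    · rintro (h | ⟨j, hj, h⟩)
      · have := congrArg Fin.val h
        simp [inner] at this
      · rw [inner_inj h]; exact hj
    · exact fun h => Or.inr ⟨i, h, rfl⟩
  have hlast : ¬ Side y (Fin.last (p + 1)) := by
    rintro (h | ⟨j, _, h⟩)
    · have := congrArg Fin.val h
      simp at this
    · have := congrArg Fin.val h
      simp only [inner, Fin.val_last] at this
      have := j.2
      omega
  have hzero : Side y (0 : Fin (p + 2)) := Or.inl rfl
  have e1 : Side y (vert P r) ↔ ∀ j : Fin l, (j : ℕ) + 1 = r → j ∈ pull P.toEmbedding y := by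
    unfold vert
    by_cases h0 : r = 0
    · rw [if_pos h0]
      refine ⟨fun _ j hj => by omega, fun _ => hzero⟩
    · have h1 : r - 1 < l := by omega
      rw [if_neg h0, dif_pos h1, hside]
      constructor
      · intro h j hj
        rw [mem_pull]
        have : j = ⟨r - 1, h1⟩ := Fin.ext (by simp only; omega)
        rw [this]
        exact h
      · intro h
        have := h ⟨r - 1, h1⟩ (by simp only; omega)
        rw [mem_pull] at this
        exact this
  have e2 : Side y (vert P (r + 1)) ↔ ∃ j : Fin l, (j : ℕ) = r ∧ j ∈ pull P.toEmbedding y := by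
    unfold vert
    rw [if_neg (by omega)]
    by_cases h1 : r < l
    · rw [dif_pos (show r + 1 - 1 < l by omega), hside]
      constructor
      · intro h
        refine ⟨⟨r, h1⟩, rfl, ?_⟩
        rw [mem_pull]
        exact h
      · rintro ⟨j, hj, hm⟩
        rw [mem_pull] at hm
        have : j = ⟨r + 1 - 1, by omega⟩ := Fin.ext (by simp only; omega)
        rw [← this]
        exact hm
    · rw [dif_neg (by omega)]
      constructor
      · intro h; exact absurd h hlast
      · rintro ⟨j, hj, _⟩
        have := j.2
        omega
  rw [e1, e2]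
  unfold Crosses
  constructor
  · rintro ⟨h1, h2⟩
    exact ⟨h1, fun ⟨j, hj, hm⟩ => h2 j hj hm⟩
  · rintro ⟨h1, h2⟩
    exact ⟨h1, fun j hj hm => h2 ⟨j, hj, hm⟩⟩

end SortedAux

open SortedAux in
/-- span programs that separate the sorted digraphs with a walk of at most `l + 1` arcs from the
sorted digraphs without any walk -/
theorem sorted_span_lower {p l d : ℕ} (hl : 2 ^ d ≤ l) (K : Type) [Field K] (V : Type)
    [AddCommGroup V] [Module K V] [FiniteDimensional K V]
    (S : SpanProgram (Fin (p + 2) × Fin (p + 2)) V) (hS : S.Avoids Set.univ)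
    (hacc : ∀ G, Sorted G → Within G 0 (Fin.last (p + 1)) (l + 1) → S.Accepts K G)
    (hrej : ∀ G, Sorted G → ¬ Reachable G 0 (Fin.last (p + 1)) → ¬ S.Accepts K G) :
    p.choose l ≤ (∑ j ∈ range (l - d), p.choose j) * Module.finrank K V := by
  classical
  have hφ : ∀ y : Finset (Fin p), ∃ φ : V →ₗ[K] K, φ S.target = 1 ∧
      ∀ v ∈ S.available (cutG y), φ v = 0 := by
    intro y
    have h1 : S.target ∉ Submodule.span K (S.available (cutG y)) :=
      hrej _ (sorted_cutG y) (not_reachable_cutG y)
    obtain ⟨φ, h2, h3⟩ := Submodule.exists_le_ker_of_notMem h1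
    refine ⟨(φ S.target)⁻¹ • φ, ?_, ?_⟩
    · simp [h2]
    · intro v hv
      have := h3 (Submodule.subset_span hv)
      rw [LinearMap.mem_ker] at this
      simp [this]
  choose φ hφ1 hφ2 using hφ
  let 𝒯 : Finset (Finset (Fin p)) := univ.filter (fun U => U.card < l - d)
  have hd : d < l := lt_of_lt_of_le Nat.lt_two_pow_self hl
  have key := core_one (K := K) (F := Fin l ↪o Fin p) (d := d) hl (fun P => P.toEmbedding)
    (by
      intro P P' hne
      by_contra hc
      push Not at hc
      -- the range of `P` is contained in the range of `P'`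
      have hsub : univ.map P.toEmbedding ⊆ univ.map P'.toEmbedding := by
        intro a ha
        rw [mem_map] at ha ⊢
        obtain ⟨j, _, rfl⟩ := ha
        obtain ⟨i, hi⟩ := hc j
        exact ⟨i, mem_univ _, hi⟩
      have heq : univ.map P.toEmbedding = univ.map P'.toEmbedding :=
        eq_of_subset_of_card_le hsub (by simp)
      have hcard : (univ.map P.toEmbedding).card = l := by simp
      have h1 : (P : Fin l → Fin p) = (univ.map P.toEmbedding).orderEmbOfFin hcard :=
        orderEmbOfFin_unique hcard (fun x => mem_map_of_mem _ (mem_univ _)) P.strictMono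
      have hcard' : (univ.map P'.toEmbedding).card = l := by simp
      have h2 : (P' : Fin l → Fin p) = (univ.map P'.toEmbedding).orderEmbOfFin hcard' :=
        orderEmbOfFin_unique hcard' (fun x => mem_map_of_mem _ (mem_univ _)) P'.strictMono
      apply hne
      apply DFunLike.coe_injective
      rw [h1, h2]
      congr 2)
    𝒯 (fun P U hU => by
      simp only [𝒯, mem_filter, mem_univ, true_and, card_map]
      omega) φ S.target hφ1
    (fun P => by
      have h1 : S.target ∈ Submodule.span K (S.available (pathG P)) :=
        hacc _ (sorted_pathG P) (within_pathG P)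
      refine Submodule.span_mono ?_ h1
      intro v hv
      rcases hv with hv | hv | hv
      · exact ⟨0, by omega, fun y _ => hφ2 y v (Or.inl hv)⟩
      · simp only [Set.mem_iUnion] at hv
        obtain ⟨e, ⟨r, hr, he⟩, hv⟩ := hv
        refine ⟨r, hr, fun y hy => ?_⟩
        refine hφ2 y v (Or.inr (Or.inl ?_))
        simp only [Set.mem_iUnion]
        refine ⟨e, ?_, hv⟩
        rw [he]
        refine ⟨vert_lt P hr, ?_⟩
        rwa [crosses_iff P y hr] at hy
      · simp only [Set.mem_iUnion] at hv
        obtain ⟨e, _, hv⟩ := hv
        rw [hS e (Set.mem_univ _)] at hv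
        exact absurd hv (Set.notMem_empty _))
  have hF : Fintype.card (Fin l ↪o Fin p) = p.choose l := by
    have h1 : Fintype.card (Fin l ↪o Fin p) = (powersetCard l (univ : Finset (Fin p))).card := by
      rw [← Fintype.card_coe]
      refine Fintype.card_congr ⟨fun P => ⟨univ.map P.toEmbedding, by simp [mem_powersetCard]⟩,
        fun s => s.1.orderEmbOfFin (mem_powersetCard.mp s.2).2, fun P => ?_, fun s => ?_⟩
      · have hcard : (univ.map P.toEmbedding).card = l := by simp
        apply DFunLike.coe_injective
        exact (orderEmbOfFin_unique hcard (fun x => mem_map_of_mem _ (mem_univ _))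
          P.strictMono).symm
      · apply Subtype.ext
        show univ.map (s.1.orderEmbOfFin _).toEmbedding = s.1
        ext a
        simp only [mem_map, mem_univ, true_and, RelEmbedding.coe_toEmbedding]
        have := range_orderEmbOfFin s.1 (mem_powersetCard.mp s.2).2
        constructor
        · rintro ⟨i, rfl⟩
          exact orderEmbOfFin_mem _ _ i
        · intro ha
          have h2 : a ∈ Set.range (s.1.orderEmbOfFin (mem_powersetCard.mp s.2).2) := by
            rw [this]; exact ha
          exact h2
    rw [h1, card_powersetCard, card_univ, Fintype.card_fin]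
  have hT : 𝒯.card = ∑ j ∈ range (l - d), p.choose j := by
    simp only [𝒯]
    rw [card_eq_sum_card_fiberwise (f := fun U : Finset (Fin p) => U.card) (t := range (l - d))
      (by
        intro U hU
        simp only [coe_filter, mem_univ, true_and, Set.mem_ofPred_eq] at hU
        simpa using hU)]
    refine sum_congr rfl fun j hj => ?_
    rw [mem_range] at hj
    have : (univ.filter (fun U : Finset (Fin p) => U.card < l - d)).filter
        (fun U => U.card = j) = powersetCard j univ := by
      ext U
      simp only [mem_filter, mem_univ, true_and, mem_powersetCard, subset_univ]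
      omega
    rw [this, card_powersetCard, card_univ, Fintype.card_fin]
  rw [hF, hT] at key
  exact key

end Pool.Agent.Lib.Pe46137Y
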