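import Pool.Agent.Lib.Pe46137P.Defs
import Pool.Agent.Lib.Pe46137Y.SortedLower

/-!
Monotone models for reachability in topologically sorted digraphs, and their cost.
-/

namespace Pool.Agent.Lib.Pe46137Y

open Pool.Agent.Lib.Pe46137 Pool.Agent.Lib.Pe46137X

/-- the property `f` holds for all topologically sorted digraphs with a walk of at most `ℓ` arcs
from `s` to `t`, and fails for all topologically sorted digraphs in which `t` cannot be reached
from `s` -/
def SortedSeparates {n : ℕ} (f : Set (Fin n × Fin n) → Prop) (s t : Fin n) (ℓ : ℕ) : Prop :=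
  (∀ G, Sorted G → Within G s t ℓ → f G) ∧ ∀ G, Sorted G → ¬ Reachable G s t → ¬ f G

variable {n : ℕ} (s t : Fin n) (ℓ : ℕ)

/-- least number of leaves of such a monotone formula -/
noncomputable def sortedFormulaSize : ℕ :=
  sInf {m | ∃ F : Pe46137X.Formula (Fin n), SortedSeparates F.Eval s t ℓ ∧ F.leaves = m}

/-- least depth of such a monotone formula -/
noncomputable def sortedFormulaDepth : ℕ :=
  sInf {m | ∃ F : Pe46137X.Formula (Fin n), SortedSeparates F.Eval s t ℓ ∧ F.depth = m}

/-- least number of states of such a monotone switching network -/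
noncomputable def sortedNetworkStates : ℕ :=
  sInf {m | ∃ N : SwitchingNetwork (Fin n × Fin n) (Fin m), IsMonotone N ∧
    SortedSeparates (fun G => N.Connects G Gᶜ) s t ℓ}

/-- least dimension of such a monotone span program over the field `K` -/
noncomputable def sortedSpanDim (K : Type) [Field K] : ℕ :=
  sInf {m | ∃ S : Pe46137P.SpanProgram (Fin n × Fin n) (Fin m → K), (∀ e, S.neg e = ∅) ∧
    SortedSeparates (S.Accepts K) s t ℓ}

/-- the exponent: the maximum of `u * (x - u)` over `0 ≤ u ≤ y` -/
noncomputable def Phi (x y : ℝ) : ℝ := if 2 * y ≤ x then y * (x - y) else x ^ 2 / 4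

end Pool.Agent.Lib.Pe46137Y
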