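import Pool.Agent.Lib.Pe46137Y.NumUY
import Pool.Agent.Lib.Pe46137X.NumR

/-!
Numerics of the lower bound.
-/

namespace Pool.Agent.Lib.Pe46137Y

open Finset

theorem Phi_eq (x y : ℝ) : Phi x y = min y (x / 2) * (x - min y (x / 2)) := by
  unfold Phi
  split_ifs with h
  · rw [min_eq_left (by linarith)]
  · rw [min_eq_right (by linarith)]
    ring

theorem sum_choose_le_mul {p l d : ℕ} (hd : d < l) (hl : 2 * l ≤ p) :
    ∑ j ∈ range (l - d), p.choose j ≤ l * p.choose (l - (d + 1)) := by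
  calc ∑ j ∈ range (l - d), p.choose j ≤ ∑ _j ∈ range (l - d), p.choose (l - (d + 1)) := by
        refine sum_le_sum fun j hj => ?_
        rw [mem_range] at hj
        -- binomial coefficients increase up to the middle
        have : ∀ a b : ℕ, a ≤ b → 2 * b ≤ p → p.choose a ≤ p.choose b := by
          intro a b hab
          induction b with
          | zero =>
            intro _
            have : a = 0 := by omega
            rw [this]
          | succ b ih =>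
            intro hb
            rcases hab.lt_or_eq with h | h
            · exact (ih (by omega) (by omega)).trans
                (Nat.choose_le_succ_of_lt_half_left (by omega))
            · rw [h]
        exact this j _ (by omega) (by omega)
    _ = (l - d) * p.choose (l - (d + 1)) := by simp
    _ ≤ _ := Nat.mul_le_mul_right _ (by omega)

theorem num_lower_Y (p ℓ : ℕ) (m : ℝ) (hℓ1 : 1 ≤ ℓ) (hℓ : ℓ ≤ p + 2) (hm : 1 ≤ m)
    (h : ∀ l d : ℕ, 2 ^ d ≤ l → l + 1 ≤ ℓ →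
      (p.choose l : ℝ) ≤ (∑ j ∈ range (l - d), p.choose j : ℕ) * m) :
    Phi (Real.logb 2 (p + 2 : ℕ)) (Real.logb 2 ℓ) - 4 * Real.logb 2 (p + 2 : ℕ) ≤
      Real.logb 2 m := by
  set n := p + 2 with hn
  set x := Real.logb 2 n with hx
  set y := Real.logb 2 ℓ with hy
  have hx1 : 1 ≤ x := by
    rw [hx, Real.le_logb_iff_rpow_le (by norm_num) (by positivity)]
    have : (2 : ℝ) ≤ n := by exact_mod_cast (by omega : 2 ≤ n)
    simpa using this
  have hy0 : 0 ≤ y := Real.logb_nonneg (by norm_num) (by exact_mod_cast hℓ1)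
  have hlm : 0 ≤ Real.logb 2 m := Real.logb_nonneg (by norm_num) hm
  rw [Phi_eq]
  set τ := min y (x / 2) with hτ
  have hτy : τ ≤ y := min_le_left _ _
  have hτx : τ ≤ x / 2 := min_le_right _ _
  have hτ0 : 0 ≤ τ := le_min hy0 (by linarith)
  by_cases hsmall : τ < 4
  · nlinarith
  push Not at hsmall
  obtain ⟨d, hd⟩ : ∃ d, d = ⌊τ⌋₊ - 3 := ⟨_, rfl⟩
  have hfl : (⌊τ⌋₊ : ℝ) ≤ τ := Nat.floor_le hτ0
  have hfl2 : τ < ⌊τ⌋₊ + 1 := Nat.lt_floor_add_one τ
  have hfl3 : 4 ≤ ⌊τ⌋₊ := Nat.le_floor (by exact_mod_cast hsmall)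
  have hdr : (d : ℝ) = ⌊τ⌋₊ - 3 := by
    rw [hd, Nat.cast_sub (by omega)]
    norm_num
  have hd1 : (d : ℝ) ≤ τ - 3 := by rw [hdr]; linarith
  have hd2 : τ - 4 < d := by rw [hdr]; linarith
  -- sizes
  have hdℓ : 8 * 2 ^ d ≤ ℓ := by
    have h1 : ((8 * 2 ^ d : ℕ) : ℝ) ≤ ℓ := by
      push_cast
      have h2 : (8 : ℝ) * 2 ^ d = (2 : ℝ) ^ ((d : ℝ) + 3) := by
        rw [Real.rpow_add (by norm_num), Real.rpow_natCast]
        norm_num
        ring
      rw [h2, ← Real.le_logb_iff_rpow_le (by norm_num) (by positivity)]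
      linarith
    exact_mod_cast h1
  have hdn : 8 * 2 ^ d ≤ n := by omega
  have hpd : 0 < 2 ^ d := by positivity
  have hdlt : d < 2 ^ d := Nat.lt_two_pow_self
  have hkey := h (2 ^ d) d le_rfl (by omega)
  have hsum := sum_choose_le_mul (p := p) (l := 2 ^ d) (d := d) hdlt (by omega)
  have hstep := Pool.Agent.Lib.Pe46137X.NumRAux.pow_step (p := p) (m := 2 ^ d) (by omega) (d + 1)
    (by omega)
  have hc : (0 : ℝ) < p.choose (2 ^ d - (d + 1)) := by
    exact_mod_cast Nat.choose_pos (by omega)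
  set c : ℝ := (p.choose (2 ^ d - (d + 1)) : ℝ) with hcdef
  have h1 : c * (((p : ℝ) - (2 ^ d : ℕ)) / (2 ^ d : ℕ)) ^ (d + 1) ≤ ((2 ^ d : ℕ) : ℝ) * c * m := by
    refine hstep.trans (hkey.trans ?_)
    refine mul_le_mul_of_nonneg_right ?_ (by linarith)
    rw [hcdef]
    exact_mod_cast hsum
  have h2 : (((p : ℝ) - (2 ^ d : ℕ)) / (2 ^ d : ℕ)) ^ (d + 1) ≤ ((2 ^ d : ℕ) : ℝ) * m := by
    have h3 : c * (((p : ℝ) - (2 ^ d : ℕ)) / (2 ^ d : ℕ)) ^ (d + 1) ≤
        c * (((2 ^ d : ℕ) : ℝ) * m) := by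
      calc _ ≤ ((2 ^ d : ℕ) : ℝ) * c * m := h1
        _ = _ := by ring
    exact le_of_mul_le_mul_left h3 hc
  have h2d : (0 : ℝ) < ((2 ^ d : ℕ) : ℝ) := by exact_mod_cast hpd
  have hnr : (8 : ℝ) * ((2 ^ d : ℕ) : ℝ) ≤ n := by exact_mod_cast hdn
  have hpn : (p : ℝ) = n - 2 := by rw [hn]; push_cast; ring
  have h16 : (16 : ℝ) ≤ n := by
    have : 2 ≤ 2 ^ d := by
      have : 1 ≤ d := by omega
      calc 2 = 2 ^ 1 := by norm_num
        _ ≤ 2 ^ d := Nat.pow_le_pow_right (by norm_num) this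
    have h3 : 16 ≤ n := by omega
    exact_mod_cast h3
  have h4 : (n : ℝ) / 2 / ((2 ^ d : ℕ) : ℝ) ≤ ((p : ℝ) - (2 ^ d : ℕ)) / (2 ^ d : ℕ) := by
    refine div_le_div_of_nonneg_right ?_ h2d.le
    rw [hpn]
    linarith
  have h5 : ((n : ℝ) / 2 / ((2 ^ d : ℕ) : ℝ)) ^ (d + 1) ≤ ((2 ^ d : ℕ) : ℝ) * m :=
    (pow_le_pow_left₀ (by positivity) h4 _).trans h2
  have h6 : Real.logb 2 (((n : ℝ) / 2 / ((2 ^ d : ℕ) : ℝ)) ^ (d + 1)) ≤
      Real.logb 2 (((2 ^ d : ℕ) : ℝ) * m) :=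
    Real.logb_le_logb_of_le (by norm_num) (by positivity) h5
  have hl2d : Real.logb 2 (((2 ^ d : ℕ) : ℝ)) = d := by
    push_cast
    rw [Real.logb_pow, Real.logb_self_eq_one (by norm_num), mul_one]
  rw [Real.logb_pow, Real.logb_div (by positivity) (by positivity),
    Real.logb_div (by positivity) (by norm_num), hl2d, Real.logb_self_eq_one (by norm_num),
    Real.logb_mul (by positivity) (by positivity), hl2d] at h6
  push_cast at h6
  have h7 : (τ - 3) * (x - τ) ≤ ((d : ℝ) + 1) * (x - 1 - d) := by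
    refine mul_le_mul (by linarith) (by linarith) (by linarith) (by linarith)
  nlinarith

end Pool.Agent.Lib.Pe46137Y
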