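import Pool.Agent.Lib.Pe46137Y.DefsY
import Pool.Agent.Lib.Pe46137Y.NumLY
import Pool.Agent.Lib.Pe46137P.SCalc
import Pool.Agent.Lib.Pe46137X.FNet

/-!
Assembly: monotone formulas, switching networks and span programs for reachability in
topologically sorted digraphs.
-/

namespace Pool.Agent.Lib.Pe46137Y

open Pool.Agent.Lib.Pe46137

namespace FinalAux

/-- a span program in `K ^ m'` -/
theorem scomp_fin {E : Type} {K : Type} [Field K] {M : Set E} {f : Set E → Prop} {m : ℕ}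
    (h : Pe46137P.SComp K M f m) : ∃ m' ≤ m, ∃ S : Pe46137P.SpanProgram E (Fin m' → K),
      S.Avoids M ∧ ∀ x, S.Accepts K x ↔ f x := by
  obtain ⟨V, i1, i2, S, h1, h2, h3, h4⟩ := h
  let e : V ≃ₗ[K] (Fin (Module.finrank K V) → K) := (Module.finBasis K V).equivFun
  refine ⟨Module.finrank K V, h2, ⟨e S.target, e '' S.free, fun i => e '' S.pos i,
    fun i => e '' S.neg i⟩, ?_, fun x => ?_⟩
  · intro i hi
    simp [h3 i hi]
  · rw [← h4 x]
    unfold Pe46137P.SpanProgram.Accepts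
    have h5 : Pe46137P.SpanProgram.available (⟨e S.target, e '' S.free, fun i => e '' S.pos i,
        fun i => e '' S.neg i⟩ : Pe46137P.SpanProgram E _) x = e '' S.available x := by
      unfold Pe46137P.SpanProgram.available
      simp only [Set.image_union, Set.image_iUnion]
    rw [h5]
    have h6 : Submodule.span K (e '' S.available x) =
        (Submodule.span K (S.available x)).map (e : V →ₗ[K] _) := by
      rw [Submodule.map_span]
      rfl
    rw [h6]
    rw [Submodule.mem_map_equiv]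
    simp

/-- a monotone formula is constant or a span program of the same size -/
theorem scomp_of_X {V : Type} (K : Type) [Field K] (F : Pe46137X.Formula V) :
    (∀ G, F.Eval G) ∨ (∀ G, ¬ F.Eval G) ∨
      Pe46137P.SComp K (Set.univ : Set (V × V)) F.Eval F.leaves := by
  induction F with
  | const b =>
    cases b with
    | true => exact Or.inl fun _ => rfl
    | false => exact Or.inr (Or.inl fun _ h => by simp [Pe46137X.Formula.Eval] at h)
  | arc u v => exact Or.inr (Or.inr (Pe46137P.scomp_lit (u, v)))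
  | and F F' h h' =>
    rcases h with h | h | h
    · rcases h' with h' | h' | h'
      · exact Or.inl fun G => ⟨h G, h' G⟩
      · exact Or.inr (Or.inl fun G hG => h' G hG.2)
      · refine Or.inr (Or.inr ((h'.congr fun G => ?_).mono (Nat.le_add_left _ _)))
        exact ⟨fun h1 => ⟨h G, h1⟩, fun h1 => h1.2⟩
    · exact Or.inr (Or.inl fun G hG => h G hG.1)
    · rcases h' with h' | h' | h'
      · refine Or.inr (Or.inr ((h.congr fun G => ?_).mono (Nat.le_add_right _ _)))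
        exact ⟨fun h1 => ⟨h1, h' G⟩, fun h1 => h1.1⟩
      · exact Or.inr (Or.inl fun G hG => h' G hG.2)
      · exact Or.inr (Or.inr (h.and h'))
  | or F F' h h' =>
    rcases h with h | h | h
    · exact Or.inl fun G => Or.inl (h G)
    · rcases h' with h' | h' | h'
      · exact Or.inl fun G => Or.inr (h' G)
      · exact Or.inr (Or.inl fun G hG => hG.elim (h G) (h' G))
      · refine Or.inr (Or.inr ((h'.congr fun G => ?_).mono (Nat.le_add_left _ _)))
        exact ⟨fun h1 => Or.inr h1, fun h1 => h1.resolve_left (h G)⟩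
    · rcases h' with h' | h' | h'
      · exact Or.inl fun G => Or.inr (h' G)
      · refine Or.inr (Or.inr ((h.congr fun G => ?_).mono (Nat.le_add_right _ _)))
        exact ⟨fun h1 => Or.inl h1, fun h1 => h1.resolve_right (h' G)⟩
      · exact Or.inr (Or.inr (h.or h'))

/-- a monotone formula gives a span program of dimension at most `2 ^ depth` -/
theorem scomp_of_depth {V : Type} (K : Type) [Field K] (F : Pe46137X.Formula V) :
    Pe46137P.SComp K (Set.univ : Set (V × V)) F.Eval (2 ^ F.depth) := by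
  induction F with
  | const b =>
    cases b with
    | true =>
      exact (Pe46137P.scomp_true.congr fun G => ⟨fun _ => rfl, fun _ => trivial⟩).mono
        (by simp [Pe46137X.Formula.depth])
    | false =>
      exact (Pe46137P.scomp_false.congr fun G => ⟨fun h => h.elim, fun h => by
        simp [Pe46137X.Formula.Eval] at h⟩).mono (by simp [Pe46137X.Formula.depth])
  | arc u v => exact (Pe46137P.scomp_lit (u, v)).mono (by simp [Pe46137X.Formula.depth])
  | and F F' h h' =>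
    refine (h.and h').mono ?_
    simp only [Pe46137X.Formula.depth]
    have h1 : 2 ^ F.depth ≤ 2 ^ (max F.depth F'.depth) :=
      Nat.pow_le_pow_right (by norm_num) (le_max_left _ _)
    have h2 : 2 ^ F'.depth ≤ 2 ^ (max F.depth F'.depth) :=
      Nat.pow_le_pow_right (by norm_num) (le_max_right _ _)
    rw [pow_succ]
    omega
  | or F F' h h' =>
    refine (h.or h').mono ?_
    simp only [Pe46137X.Formula.depth]
    have h1 : 2 ^ F.depth ≤ 2 ^ (max F.depth F'.depth) :=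
      Nat.pow_le_pow_right (by norm_num) (le_max_left _ _)
    have h2 : 2 ^ F'.depth ≤ 2 ^ (max F.depth F'.depth) :=
      Nat.pow_le_pow_right (by norm_num) (le_max_right _ _)
    rw [pow_succ]
    omega

theorem leaves_le {V : Type} (F : Pe46137X.Formula V) : F.leaves ≤ 2 ^ F.depth := by
  induction F with
  | const b => simp [Pe46137X.Formula.leaves]
  | arc u v => simp [Pe46137X.Formula.leaves, Pe46137X.Formula.depth]
  | and F F' h h' =>
    simp only [Pe46137X.Formula.leaves, Pe46137X.Formula.depth]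
    have h1 : 2 ^ F.depth ≤ 2 ^ (max F.depth F'.depth) :=
      Nat.pow_le_pow_right (by norm_num) (le_max_left _ _)
    have h2 : 2 ^ F'.depth ≤ 2 ^ (max F.depth F'.depth) :=
      Nat.pow_le_pow_right (by norm_num) (le_max_right _ _)
    rw [pow_succ]
    omega
  | or F F' h h' =>
    simp only [Pe46137X.Formula.leaves, Pe46137X.Formula.depth]
    have h1 : 2 ^ F.depth ≤ 2 ^ (max F.depth F'.depth) :=
      Nat.pow_le_pow_right (by norm_num) (le_max_left _ _)
    have h2 : 2 ^ F'.depth ≤ 2 ^ (max F.depth F'.depth) :=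
      Nat.pow_le_pow_right (by norm_num) (le_max_right _ _)
    rw [pow_succ]
    omega

section

variable {p : ℕ}

/-- every span program that does the job is large -/
theorem lower_V {ℓ : ℕ} (hℓ1 : 1 ≤ ℓ) (hℓ : ℓ ≤ p + 2) (K : Type) [Field K]
    {f : Set (Fin (p + 2) × Fin (p + 2)) → Prop} {m : ℕ}
    (hf : SortedSeparates f 0 (Fin.last (p + 1)) ℓ) (h : Pe46137P.SComp K Set.univ f m) :
    1 ≤ m ∧ Phi (Real.logb 2 (p + 2 : ℕ)) (Real.logb 2 ℓ) - 4 * Real.logb 2 (p + 2 : ℕ) ≤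
      Real.logb 2 m := by
  obtain ⟨V, i1, i2, S, h1, h2, h3, h4⟩ := h
  have hm : 1 ≤ m := by
    have h5 : ¬ S.Accepts K ∅ := by
      rw [h4]
      refine hf.2 ∅ (fun e he => he.elim) ?_
      intro hr
      unfold Reachable at hr
      rcases Relation.ReflTransGen.cases_head hr with h6 | ⟨c, h6, _⟩
      · have := congrArg Fin.val h6
        simp at this
      · exact h6
    have h6 : S.target ≠ 0 := by
      intro h7
      apply h5
      unfold Pe46137P.SpanProgram.Accepts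
      rw [h7]
      exact Submodule.zero_mem _
    have h7 : 0 < Module.finrank K V := Module.finrank_pos_iff_exists_ne_zero.mpr ⟨_, h6⟩
    omega
  refine ⟨hm, num_lower_Y p ℓ m hℓ1 hℓ (by exact_mod_cast hm) fun l d hd hl => ?_⟩
  have key := sorted_span_lower (p := p) hd K V S h3
    (fun G hG hw => (h4 G).mpr (hf.1 G hG (by
      obtain ⟨r, hr, hw⟩ := hw
      exact ⟨r, hr.trans hl, hw⟩)))
    (fun G hG hr => by rw [h4]; exact hf.2 G hG hr)
  have key2 : p.choose l ≤ (∑ j ∈ Finset.range (l - d), p.choose j) * m :=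
    key.trans (Nat.mul_le_mul_left _ h2)
  exact_mod_cast key2

theorem main_aux : ∃ C : ℝ, 0 < C ∧ ∀ (p ℓ : ℕ), 1 ≤ ℓ → ℓ ≤ p + 2 →
    |Real.logb 2 (sortedFormulaSize 0 (Fin.last (p + 1)) ℓ) -
      Phi (Real.logb 2 (p + 2 : ℕ)) (Real.logb 2 ℓ)| ≤ C * Real.logb 2 (p + 2 : ℕ) ^ (5 / 3 : ℝ) ∧
    |(sortedFormulaDepth 0 (Fin.last (p + 1)) ℓ : ℝ) -
      Phi (Real.logb 2 (p + 2 : ℕ)) (Real.logb 2 ℓ)| ≤ C * Real.logb 2 (p + 2 : ℕ) ^ (5 / 3 : ℝ) ∧
    |Real.logb 2 (sortedNetworkStates 0 (Fin.last (p + 1)) ℓ) -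
      Phi (Real.logb 2 (p + 2 : ℕ)) (Real.logb 2 ℓ)| ≤ C * Real.logb 2 (p + 2 : ℕ) ^ (5 / 3 : ℝ) ∧
    ∀ (K : Type) [Field K], |Real.logb 2 (sortedSpanDim 0 (Fin.last (p + 1)) ℓ K) -
      Phi (Real.logb 2 (p + 2 : ℕ)) (Real.logb 2 ℓ)| ≤
        C * Real.logb 2 (p + 2 : ℕ) ^ (5 / 3 : ℝ) := by
  obtain ⟨C, hC, hU⟩ := num_upper_Y
  refine ⟨C + 4, by linarith, fun p ℓ h1 h2 => ?_⟩
  obtain ⟨δ, κ, hδ, hκ, hdep⟩ := hU (p + 2) ℓ (by omega) h1 h2
  have hst : (0 : Fin (p + 2)) ≠ Fin.last (p + 1) := by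
    intro h
    have := congrArg Fin.val h
    simp at this
  obtain ⟨F, hF1, hF2, hF3⟩ := exists_sorted_formula (n := p + 2) (by omega) hst (ℓ := ℓ) hδ hκ
  have hF : SortedSeparates F.Eval 0 (Fin.last (p + 1)) ℓ :=
    ⟨hF1, fun G _ hr h => hr (hF2 G h)⟩
  set x := Real.logb 2 (p + 2 : ℕ) with hx
  set Φ := Phi x (Real.logb 2 ℓ) with hΦ
  have hx1 : 1 ≤ x := by
    rw [hx, Real.le_logb_iff_rpow_le (by norm_num) (by positivity)]
    have : (2 : ℝ) ≤ ((p + 2 : ℕ) : ℝ) := by exact_mod_cast (by omega : 2 ≤ p + 2)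
    simpa using this
  have hx53 : x ≤ x ^ (5 / 3 : ℝ) := by
    calc x = x ^ (1 : ℝ) := (Real.rpow_one x).symm
      _ ≤ x ^ (5 / 3 : ℝ) := Real.rpow_le_rpow_of_exponent_le hx1 (by norm_num)
  have hCx : 0 ≤ C * x ^ (5 / 3 : ℝ) := mul_nonneg hC.le (Real.rpow_nonneg (by linarith) _)
  have hdepR : (F.depth : ℝ) ≤ Φ + C * x ^ (5 / 3 : ℝ) :=
    le_trans (by exact_mod_cast hF3) hdep
  have hpow : ∀ d : ℕ, Real.logb 2 ((2 : ℝ) ^ d) = d := fun d => by
    rw [Real.logb_pow, Real.logb_self_eq_one (by norm_num), mul_one]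
  -- formulas
  have lowF : ∀ F' : Pe46137X.Formula (Fin (p + 2)),
      SortedSeparates F'.Eval 0 (Fin.last (p + 1)) ℓ →
      1 ≤ F'.leaves ∧ Φ - 4 * x ≤ Real.logb 2 F'.leaves := by
    intro F' hF'
    have hempty : ¬ F'.Eval ∅ := by
      refine hF'.2 ∅ (fun e he => he.elim) ?_
      intro hr
      unfold Reachable at hr
      rcases Relation.ReflTransGen.cases_head hr with h6 | ⟨c, h6, _⟩
      · exact hst h6
      · exact h6
    have hone : F'.Eval {((0 : Fin (p + 2)), Fin.last (p + 1))} := by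
      refine hF'.1 _ ?_ ?_
      · intro e he
        rw [Set.mem_singleton_iff] at he
        rw [he]
        exact Fin.last_pos
      · refine ⟨1, h1, fun j => if j = 0 then 0 else Fin.last (p + 1), by simp, by simp, ?_⟩
        intro j hj
        have : j = 0 := by omega
        subst this
        simp
    rcases scomp_of_X ℚ F' with h | h | h
    · exact absurd (h ∅) hempty
    · exact absurd hone (h _)
    · exact lower_V h1 h2 ℚ hF' h
  have hSne : {m | ∃ F : Pe46137X.Formula (Fin (p + 2)),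
    SortedSeparates F.Eval 0 (Fin.last (p + 1)) ℓ ∧ F.leaves = m}.Nonempty := ⟨_, F, hF, rfl⟩
  have hDne : {m | ∃ F : Pe46137X.Formula (Fin (p + 2)),
    SortedSeparates F.Eval 0 (Fin.last (p + 1)) ℓ ∧ F.depth = m}.Nonempty := ⟨_, F, hF, rfl⟩
  obtain ⟨F1, hF1s, hF1m⟩ : ∃ F : Pe46137X.Formula (Fin (p + 2)),
    SortedSeparates F.Eval 0 (Fin.last (p + 1)) ℓ ∧
      F.leaves = sortedFormulaSize 0 (Fin.last (p + 1)) ℓ := Nat.sInf_mem hSne
  obtain ⟨F2, hF2s, hF2m⟩ : ∃ F : Pe46137X.Formula (Fin (p + 2)),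
    SortedSeparates F.Eval 0 (Fin.last (p + 1)) ℓ ∧
      F.depth = sortedFormulaDepth 0 (Fin.last (p + 1)) ℓ := Nat.sInf_mem hDne
  -- networks
  obtain ⟨m, hm, N, hNmon, hN1, hN2⟩ := Pe46137X.exists_network F
  have hN : SortedSeparates (fun G => N.Connects G Gᶜ) 0 (Fin.last (p + 1)) ℓ :=
    ⟨fun G hG hw => Pe46137X.eqvGen_of_joinedIn (hN1 G (hF.1 G hG hw)),
      fun G hG hr => hN2 G (hF.2 G hG hr)⟩
  have hNne : {m | ∃ N : SwitchingNetwork (Fin (p + 2) × Fin (p + 2)) (Fin m),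
    Pe46137X.IsMonotone N ∧
    SortedSeparates (fun G => N.Connects G Gᶜ) 0 (Fin.last (p + 1)) ℓ}.Nonempty :=
    ⟨m, N, hNmon, hN⟩
  obtain ⟨N3, hN3m, hN3s⟩ : ∃ N : SwitchingNetwork (Fin (p + 2) × Fin (p + 2))
    (Fin (sortedNetworkStates 0 (Fin.last (p + 1)) ℓ)), Pe46137X.IsMonotone N ∧
    SortedSeparates (fun G => N.Connects G Gᶜ) 0 (Fin.last (p + 1)) ℓ := Nat.sInf_mem hNne
  refine ⟨?_, ?_, ?_, ?_⟩
  · rw [abs_le]
    have h3 := lowF F1 hF1s
    rw [hF1m] at h3
    constructor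
    · linarith [h3.2]
    · have h4 : sortedFormulaSize 0 (Fin.last (p + 1)) ℓ ≤ 2 ^ F.depth :=
        (show sortedFormulaSize 0 (Fin.last (p + 1)) ℓ ≤ F.leaves from
          Nat.sInf_le ⟨F, hF, rfl⟩).trans (leaves_le F)
      have h5 : Real.logb 2 (sortedFormulaSize 0 (Fin.last (p + 1)) ℓ) ≤ F.depth := by
        rw [← hpow F.depth]
        refine Real.logb_le_logb_of_le (by norm_num) ?_ (by exact_mod_cast h4)
        exact_mod_cast h3.1
      nlinarith
  · rw [abs_le]
    constructor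
    · have h3 := lowF F2 hF2s
      have h4 : Real.logb 2 F2.leaves ≤ F2.depth := by
        rw [← hpow F2.depth]
        refine Real.logb_le_logb_of_le (by norm_num) ?_ (by exact_mod_cast leaves_le F2)
        exact_mod_cast h3.1
      rw [hF2m] at h4
      linarith [h3.2]
    · have h3 : sortedFormulaDepth 0 (Fin.last (p + 1)) ℓ ≤ F.depth := Nat.sInf_le ⟨F, hF, rfl⟩
      have h4 : (sortedFormulaDepth 0 (Fin.last (p + 1)) ℓ : ℝ) ≤ F.depth := by exact_mod_cast h3
      nlinarith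
  · rw [abs_le]
    have h3 := lower_V h1 h2 ℚ hN3s (Pe46137P.scomp_of_network ℚ N3 fun e _ => hN3m e)
    rw [Fintype.card_fin] at h3
    constructor
    · linarith [h3.2]
    · have h4 : sortedNetworkStates 0 (Fin.last (p + 1)) ℓ ≤ 2 ^ (F.depth + 1) :=
        (show sortedNetworkStates 0 (Fin.last (p + 1)) ℓ ≤ m from
          Nat.sInf_le ⟨N, hNmon, hN⟩).trans hm
      have h5 : Real.logb 2 (sortedNetworkStates 0 (Fin.last (p + 1)) ℓ) ≤
          ((F.depth + 1 : ℕ) : ℝ) := by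
        rw [← hpow (F.depth + 1)]
        refine Real.logb_le_logb_of_le (by norm_num) ?_ (by exact_mod_cast h4)
        exact_mod_cast h3.1
      push_cast at h5
      nlinarith
  · intro K _
    obtain ⟨m', hm', S, hS1, hS2⟩ := scomp_fin (scomp_of_depth K F)
    have hS : SortedSeparates (S.Accepts K) 0 (Fin.last (p + 1)) ℓ :=
      ⟨fun G hG hw => (hS2 G).mpr (hF.1 G hG hw), fun G hG hr => by
        rw [hS2]; exact hF.2 G hG hr⟩
    have hKne : {m | ∃ S : Pe46137P.SpanProgram (Fin (p + 2) × Fin (p + 2)) (Fin m → K),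
        (∀ e, S.neg e = ∅) ∧ SortedSeparates (S.Accepts K) 0 (Fin.last (p + 1)) ℓ}.Nonempty :=
      ⟨m', S, fun e => hS1 e (Set.mem_univ e), hS⟩
    obtain ⟨S4, hS41, hS42⟩ : ∃ S : Pe46137P.SpanProgram (Fin (p + 2) × Fin (p + 2))
        (Fin (sortedSpanDim 0 (Fin.last (p + 1)) ℓ K) → K),
        (∀ e, S.neg e = ∅) ∧ SortedSeparates (S.Accepts K) 0 (Fin.last (p + 1)) ℓ :=
      Nat.sInf_mem hKne
    have h3 := lower_V h1 h2 K hS42 ⟨_, inferInstance, inferInstance, S4, inferInstance,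
      (le_of_eq (by simp : Module.finrank K (Fin (sortedSpanDim 0 (Fin.last (p + 1)) ℓ K) → K) =
        sortedSpanDim 0 (Fin.last (p + 1)) ℓ K)), fun e _ => hS41 e, fun x => Iff.rfl⟩
    rw [abs_le]
    constructor
    · linarith [h3.2]
    · have h4 : sortedSpanDim 0 (Fin.last (p + 1)) ℓ K ≤ 2 ^ F.depth :=
        (show sortedSpanDim 0 (Fin.last (p + 1)) ℓ K ≤ m' from
          Nat.sInf_le ⟨S, fun e => hS1 e (Set.mem_univ e), hS⟩).trans hm'
      have h5 : Real.logb 2 (sortedSpanDim 0 (Fin.last (p + 1)) ℓ K) ≤ F.depth := by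
        rw [← hpow F.depth]
        refine Real.logb_le_logb_of_le (by norm_num) ?_ (by exact_mod_cast h4)
        exact_mod_cast h3.1
      nlinarith

end

end FinalAux

/-- the main theorem -/
theorem main : ∃ C : ℝ, 0 < C ∧ ∀ (n : ℕ) (s t : Fin n), s ≠ t → (∀ v, s ≤ v ∧ v ≤ t) →
    ∀ ℓ : ℕ, 1 ≤ ℓ → ℓ ≤ n →
    |Real.logb 2 (sortedFormulaSize s t ℓ) - Phi (Real.logb 2 n) (Real.logb 2 ℓ)| ≤
      C * Real.logb 2 n ^ (5 / 3 : ℝ) ∧
    |(sortedFormulaDepth s t ℓ : ℝ) - Phi (Real.logb 2 n) (Real.logb 2 ℓ)| ≤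
      C * Real.logb 2 n ^ (5 / 3 : ℝ) ∧
    |Real.logb 2 (sortedNetworkStates s t ℓ) - Phi (Real.logb 2 n) (Real.logb 2 ℓ)| ≤
      C * Real.logb 2 n ^ (5 / 3 : ℝ) ∧
    ∀ (K : Type) [Field K],
      |Real.logb 2 (sortedSpanDim s t ℓ K) - Phi (Real.logb 2 n) (Real.logb 2 ℓ)| ≤
        C * Real.logb 2 n ^ (5 / 3 : ℝ) := by
  obtain ⟨C, hC, h⟩ := FinalAux.main_aux
  refine ⟨C, hC, fun n s t hst hv ℓ h1 h2 => ?_⟩
  obtain ⟨p, rfl⟩ : ∃ p, n = p + 2 := by
    refine ⟨n - 2, ?_⟩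
    have h3 := s.2
    have h4 := t.2
    have h5 : (s : ℕ) ≠ t := fun h => hst (Fin.ext h)
    omega
  have hs : s = 0 := le_antisymm (hv 0).1 (Fin.zero_le s)
  have ht : t = Fin.last (p + 1) := le_antisymm (Fin.le_last t) (hv (Fin.last (p + 1))).2
  subst hs
  subst ht
  exact h p ℓ h1 h2

end Pool.Agent.Lib.Pe46137Y
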