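import Pool.Agent.Lib.Pe46137Y.Upper
import Pool.Agent.Lib.Pe46137Y.DefsY

/-!
Numerics of the upper bound.
-/

namespace Pool.Agent.Lib.Pe46137Y

/-- error bound in closed form -/
theorem err_le (δ L : ℕ) (κ : ℕ) :
    err δ L κ ≤ κ * (2 * δ ^ 2 + L * δ) + ((κ * δ + δ + L) * (κ * (5 * κ + 7))) := by
  induction κ with
  | zero => simp [err]
  | succ s ih =>
    have h : err δ L (s + 1) =
        err δ L s + (2 * δ ^ 2 + L * δ) + ((s + 1) * δ + δ + L) * (5 * s + 7) := rfl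
    rw [h]
    have h1 : (s * δ + δ + L) * (s * (5 * s + 7)) ≤ ((s + 1) * δ + δ + L) * (s * (5 * s + 7)) :=
      Nat.mul_le_mul_right _ (by nlinarith)
    have h2 : ((s + 1) * δ + δ + L) * (s * (5 * s + 7)) + ((s + 1) * δ + δ + L) * (5 * s + 7) ≤
        ((s + 1) * δ + δ + L) * ((s + 1) * (5 * (s + 1) + 7)) := by
      rw [← mul_add]
      exact Nat.mul_le_mul_left _ (by nlinarith)
    have h3 : (s + 1) * (2 * δ ^ 2 + L * δ) = s * (2 * δ ^ 2 + L * δ) + (2 * δ ^ 2 + L * δ) := by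
      ring
    omega

theorem clog_le_logb {n : ℕ} (hn : 1 ≤ n) : (Nat.clog 2 n : ℝ) ≤ Real.logb 2 n + 1 := by
  rcases hn.lt_or_eq with h | h
  · have h1 : 2 ^ (Nat.clog 2 n - 1) < n := Nat.pow_pred_clog_lt_self (by norm_num) h
    have h2 : 1 ≤ Nat.clog 2 n := Nat.clog_pos (by norm_num) h
    have h3 : ((Nat.clog 2 n - 1 : ℕ) : ℝ) ≤ Real.logb 2 n := by
      rw [Real.le_logb_iff_rpow_le (by norm_num) (by positivity), Real.rpow_natCast]
      exact_mod_cast h1.le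
    rw [Nat.cast_sub h2] at h3
    push_cast at h3
    linarith
  · subst h
    simp

theorem logb_le_two_mul {u : ℝ} (hu : 0 < u) : Real.logb 2 u ≤ 2 * u := by
  unfold Real.logb
  have h1 : Real.log u ≤ u - 1 := Real.log_le_sub_one_of_pos hu
  have h2 : (0.5 : ℝ) < Real.log 2 := by
    have := Real.log_two_gt_d9
    linarith
  rw [div_le_iff₀ (by linarith)]
  nlinarith

theorem logb_cube {u : ℝ} : Real.logb 2 (u ^ 3) = 3 * Real.logb 2 u := by
  have := Real.logb_pow 2 u 3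
  push_cast at this
  exact this

theorem Lc_le {n : ℕ} (hn : 2 ≤ n) {u : ℝ} (hu1 : 1 ≤ u) (hux : u ^ 3 = Real.logb 2 n) :
    (Lc n : ℝ) ≤ 23 * u := by
  have hq1 : 1 ≤ Nat.clog 2 n := Nat.clog_pos (by norm_num) hn
  have hq := clog_le_logb (n := n) (by omega)
  have hx1 : 1 ≤ u ^ 3 := one_le_pow₀ hu1
  have hq2 : (Nat.clog 2 n : ℝ) ≤ 2 * u ^ 3 := by rw [hux] at hx1 ⊢; linarith
  have hlu := logb_le_two_mul (u := u) (by linarith)
  have h2 : ∀ a : ℕ, 1 ≤ a → (a : ℝ) ≤ 8 * u ^ 3 →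
      (Nat.clog 2 a : ℝ) ≤ 6 * u + 4 := by
    intro a ha hle
    have h3 := clog_le_logb ha
    have h4 : Real.logb 2 a ≤ Real.logb 2 (8 * u ^ 3) :=
      Real.logb_le_logb_of_le (by norm_num) (by exact_mod_cast ha) hle
    have h5 : Real.logb 2 (8 * u ^ 3) = 3 + 3 * Real.logb 2 u := by
      rw [Real.logb_mul (by norm_num) (by positivity), logb_cube]
      have : Real.logb 2 8 = 3 := by
        rw [show (8 : ℝ) = 2 ^ (3 : ℕ) by norm_num, Real.logb_pow]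
        simp
      rw [this]
    linarith
  have h3 := h2 (3 * Nat.clog 2 n) (by omega) (by push_cast; nlinarith)
  have h4 := h2 (Nat.clog 2 n + 1) (by omega) (by push_cast; nlinarith)
  unfold Lc
  push_cast
  linarith

theorem fmax_real_le {k Y : ℕ} {x y e : ℝ} (hx : 0 ≤ x) (hy : 0 ≤ y) (hxk : x ≤ k)
    (hke : (k : ℝ) ≤ x + e) (he : 0 ≤ e) (hY : (Y : ℝ) ≤ y) :
    (fmax k Y : ℝ) ≤ Phi x y + (x * e + e ^ 2) := by
  unfold Phi
  split_ifs with h
  · have h1 : 2 * Y ≤ k := by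
      have : (2 * Y : ℝ) ≤ k := by linarith
      exact_mod_cast this
    have h2 := fmax_le_of_le_half h1
    have h3 : (fmax k Y : ℝ) ≤ Y * (k - Y) := by
      have h4 : Y ≤ k := by omega
      have : ((fmax k Y : ℕ) : ℝ) ≤ ((Y * (k - Y) : ℕ) : ℝ) := by exact_mod_cast h2
      push_cast [Nat.cast_sub h4] at this
      exact this
    have hY0 : (0 : ℝ) ≤ Y := by positivity
    have h5 : (Y : ℝ) * (k - Y) ≤ y * (k - y) := by
      nlinarith [mul_nonneg (sub_nonneg.mpr hY) (show (0 : ℝ) ≤ k - y - Y by linarith)]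
    have h6 : y * (k - y) ≤ y * (x - y) + y * e := by nlinarith
    nlinarith
  · have h2 := four_mul_fmax_le k Y
    have h3 : (4 : ℝ) * fmax k Y ≤ k ^ 2 := by exact_mod_cast h2
    have h4 : (k : ℝ) ^ 2 ≤ (x + e) ^ 2 := pow_le_pow_left₀ (by positivity) hke 2
    nlinarith [mul_nonneg hx he, sq_nonneg e]

theorem num_upper_Y : ∃ C : ℝ, 0 < C ∧ ∀ n ℓ : ℕ, 2 ≤ n → 1 ≤ ℓ → ℓ ≤ n →
    ∃ δ κ : ℕ, 0 < δ ∧ n ≤ 2 ^ (κ * δ) ∧
      (depY n ℓ δ κ : ℝ) ≤ Phi (Real.logb 2 n) (Real.logb 2 ℓ) +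
        C * (Real.logb 2 n) ^ (5 / 3 : ℝ) := by
  refine ⟨1150, by norm_num, fun n ℓ hn h1 h2 => ?_⟩
  set x := Real.logb 2 n with hx
  have hx1 : 1 ≤ x := by
    rw [hx, Real.le_logb_iff_rpow_le (by norm_num) (by positivity)]
    simpa using (by exact_mod_cast hn : (2 : ℝ) ≤ n)
  set u := x ^ (1 / 3 : ℝ) with hu
  have hu1 : 1 ≤ u := Real.one_le_rpow hx1 (by norm_num)
  have hux : u ^ 3 = x := by
    rw [hu, ← Real.rpow_natCast, ← Real.rpow_mul (by linarith)]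
    norm_num
  have hu5 : x ^ (5 / 3 : ℝ) = u ^ 5 := by
    rw [hu, ← Real.rpow_natCast, ← Real.rpow_mul (by linarith)]
    norm_num
  rw [hu5]
  obtain ⟨δ, hδ⟩ : ∃ δ, δ = ⌈u ^ 2⌉₊ := ⟨_, rfl⟩
  obtain ⟨κ, hκ⟩ : ∃ κ, κ = ⌈u⌉₊ := ⟨_, rfl⟩
  have hu2 : 1 ≤ u ^ 2 := one_le_pow₀ hu1
  have hu3 : 1 ≤ u ^ 3 := one_le_pow₀ hu1
  have hδl : u ^ 2 ≤ δ := by rw [hδ]; exact Nat.le_ceil _
  have hδu : (δ : ℝ) ≤ u ^ 2 + 1 := by rw [hδ]; exact (Nat.ceil_lt_add_one (by positivity)).le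
  have hκl : u ≤ κ := by rw [hκ]; exact Nat.le_ceil _
  have hκu : (κ : ℝ) ≤ u + 1 := by rw [hκ]; exact (Nat.ceil_lt_add_one (by linarith)).le
  have hδ0 : 0 < δ := by
    have : (0 : ℝ) < δ := by linarith
    exact_mod_cast this
  have hkl : x ≤ ((κ * δ : ℕ) : ℝ) := by
    push_cast
    rw [← hux]
    calc u ^ 3 = u * u ^ 2 := by ring
      _ ≤ (κ : ℝ) * δ := mul_le_mul hκl hδl (by positivity) (by positivity)
  have hku : ((κ * δ : ℕ) : ℝ) ≤ x + 3 * u ^ 2 := by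
    push_cast
    rw [← hux]
    calc (κ : ℝ) * δ ≤ (u + 1) * (u ^ 2 + 1) := mul_le_mul hκu hδu (by positivity) (by linarith)
      _ ≤ u ^ 3 + 3 * u ^ 2 := by nlinarith
  refine ⟨δ, κ, hδ0, ?_, ?_⟩
  · have h3 : (n : ℝ) ≤ (2 : ℝ) ^ (κ * δ) := by
      rw [← Real.rpow_natCast, ← Real.logb_le_iff_le_rpow (by norm_num) (by positivity)]
      exact hkl
    exact_mod_cast h3
  · have hn1 : (1 : ℝ) ≤ n := by exact_mod_cast (by omega : 1 ≤ n)
    have hℓ1 : (1 : ℝ) ≤ ℓ := by exact_mod_cast h1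
    have hy0 : 0 ≤ Real.logb 2 ℓ := Real.logb_nonneg (by norm_num) hℓ1
    have hY : (Nat.log 2 ℓ : ℝ) ≤ Real.logb 2 ℓ := by
      rw [Real.le_logb_iff_rpow_le (by norm_num) (by positivity), Real.rpow_natCast]
      exact_mod_cast Nat.pow_log_le_self 2 (by omega)
    have hf := fmax_real_le (k := κ * δ) (Y := Nat.log 2 ℓ) (by linarith) hy0 hkl hku
      (by positivity) hY
    have hL := Lc_le hn hu1 (hux.trans hx)
    have hE : (err δ (Lc n) κ : ℝ) ≤ κ * (2 * δ ^ 2 + Lc n * δ) +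
        ((κ * δ + δ + Lc n) * (κ * (5 * κ + 7))) := by
      exact_mod_cast err_le δ (Lc n) κ
    have hδ2 : (δ : ℝ) ≤ 2 * u ^ 2 := by linarith
    have hκ2 : (κ : ℝ) ≤ 2 * u := by linarith
    have hE2 : (err δ (Lc n) κ : ℝ) ≤ 1100 * u ^ 5 := by
      have e1 : (κ : ℝ) * (2 * δ ^ 2 + Lc n * δ) ≤
          (2 * u) * (2 * (2 * u ^ 2) ^ 2 + (23 * u) * (2 * u ^ 2)) := by
        refine mul_le_mul hκ2 ?_ (by positivity) (by positivity)
        refine add_le_add ?_ ?_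
        · exact mul_le_mul_of_nonneg_left (pow_le_pow_left₀ (by positivity) hδ2 2) (by norm_num)
        · exact mul_le_mul hL hδ2 (by positivity) (by positivity)
      have e2 : ((κ : ℝ) * δ + δ + Lc n) * (κ * (5 * κ + 7)) ≤
          ((2 * u) * (2 * u ^ 2) + 2 * u ^ 2 + 23 * u) * ((2 * u) * (5 * (2 * u) + 7)) := by
        refine mul_le_mul ?_ ?_ (by positivity) (by positivity)
        · refine add_le_add (add_le_add ?_ hδ2) hL
          exact mul_le_mul hκ2 hδ2 (by positivity) (by positivity)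
        · exact mul_le_mul hκ2 (by linarith) (by positivity) (by positivity)
      have h12 : u ≤ u ^ 2 := by nlinarith
      have h23 : u ^ 2 ≤ u ^ 3 := by nlinarith
      have h34 : u ^ 3 ≤ u ^ 4 := by nlinarith [pow_pos (show (0:ℝ) < u by linarith) 3]
      have h45 : u ^ 4 ≤ u ^ 5 := by nlinarith [pow_pos (show (0:ℝ) < u by linarith) 4]
      nlinarith
    -- the seeds
    have hS : (Nat.clog 2 (Nat.clog 2 n * n + 1) : ℝ) ≤ 12 * u ^ 5 := by
      have hq1 : 1 ≤ Nat.clog 2 n := Nat.clog_pos (by norm_num) hn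
      have hq := clog_le_logb (n := n) (by omega)
      have hq2 : (Nat.clog 2 n : ℝ) ≤ 2 * u ^ 3 := by rw [hux]; linarith
      have h3 := clog_le_logb (n := Nat.clog 2 n * n + 1) (by omega)
      have h4 : ((Nat.clog 2 n * n + 1 : ℕ) : ℝ) ≤ 4 * u ^ 3 * n := by
        push_cast
        nlinarith
      have h5 : Real.logb 2 ((Nat.clog 2 n * n + 1 : ℕ) : ℝ) ≤ Real.logb 2 (4 * u ^ 3 * n) :=
        Real.logb_le_logb_of_le (by norm_num) (by positivity) h4
      have h6 : Real.logb 2 (4 * u ^ 3 * n) = 2 + 3 * Real.logb 2 u + x := by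
        rw [Real.logb_mul (by positivity) (by positivity),
          Real.logb_mul (by norm_num) (by positivity), logb_cube]
        have : Real.logb 2 4 = 2 := by
          rw [show (4 : ℝ) = 2 ^ (2 : ℕ) by norm_num, Real.logb_pow]
          simp
        rw [this]
      have hlu := logb_le_two_mul (u := u) (by linarith)
      have h35 : u ^ 3 ≤ u ^ 5 := by nlinarith [pow_pos (show (0:ℝ) < u by linarith) 3]
      have h15 : u ≤ u ^ 5 := by nlinarith [pow_pos (show (0:ℝ) < u by linarith) 3]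
      have h05 : 1 ≤ u ^ 5 := one_le_pow₀ hu1
      rw [← hux] at h6
      linarith
    have hD : (depY n ℓ δ κ : ℝ) = (Nat.clog 2 (Nat.clog 2 n * n + 1) : ℝ) +
        ((fmax (κ * δ) (Nat.log 2 ℓ) : ℝ) + (err δ (Lc n) κ : ℝ)) := by
      unfold depY
      push_cast
      ring
    rw [hD]
    have h7 : x * (3 * u ^ 2) + (3 * u ^ 2) ^ 2 ≤ 12 * u ^ 5 := by
      rw [← hux]
      have h45 : u ^ 4 ≤ u ^ 5 := by nlinarith [pow_pos (show (0:ℝ) < u by linarith) 4]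
      nlinarith
    have h05 : 0 ≤ u ^ 5 := by positivity
    linarith

end Pool.Agent.Lib.Pe46137Y
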