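import Pool.Agent.Lib.Pe46137Y.Scale

/-!
The path part of the sorted half: every path inside a window of `2 ^ (s δ)` positions with less
than `2 ^ (y+1)` inner vertices is verified with budget `max_{t ≤ y} t (s δ - t)` plus an error.
-/

namespace Pool.Agent.Lib.Pe46137Y

/-- The maximum of `t (k - t)` over `t ≤ y`. -/
def fmax (k y : ℕ) : ℕ := (Finset.range (y + 1)).sup fun t => t * (k - t)

/-- The error after `s` scales. -/
def err (δ L : ℕ) : ℕ → ℕ
  | 0 => 0
  | s + 1 => err δ L s + (2 * δ ^ 2 + L * δ) + ((s + 1) * δ + δ + L) * (5 * s + 7)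

theorem le_fmax {k y t : ℕ} (h : t ≤ y) : t * (k - t) ≤ fmax k y :=
  Finset.le_sup (f := fun t => t * (k - t)) (Finset.mem_range.mpr (Nat.lt_succ_of_le h))

theorem exists_fmax (k y : ℕ) : ∃ t ≤ y, fmax k y = t * (k - t) := by
  obtain ⟨t, ht, h⟩ := Finset.exists_mem_eq_sup (Finset.range (y + 1)) ⟨0, by simp⟩
    (fun t => t * (k - t))
  exact ⟨t, Nat.lt_succ_iff.mp (Finset.mem_range.mp ht), h⟩

theorem four_mul_fmax_le (k y : ℕ) : 4 * fmax k y ≤ k ^ 2 := by
  obtain ⟨t, _, h⟩ := exists_fmax k y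
  rw [h]
  rcases le_total t k with h1 | h1
  · obtain ⟨d, rfl⟩ : ∃ d, k = t + d := ⟨k - t, by omega⟩
    have : t + d - t = d := by omega
    rw [this]
    nlinarith [sq_nonneg ((t : ℤ) - d), four_mul_le_pow_two_add t d]
  · have : k - t = 0 := by omega
    rw [this]
    simp

theorem fmax_le_of_le_half {k y : ℕ} (h : 2 * y ≤ k) : fmax k y ≤ y * (k - y) := by
  obtain ⟨t, ht, h1⟩ := exists_fmax k y
  rw [h1]
  obtain ⟨a, rfl⟩ : ∃ a, y = t + a := ⟨y - t, by omega⟩
  obtain ⟨b, rfl⟩ : ∃ b, k = t + a + (t + a) + b := ⟨k - (t + a + (t + a)), by omega⟩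
  have e1 : t + a + (t + a) + b - t = t + 2 * a + b := by omega
  have e2 : t + a + (t + a) + b - (t + a) = t + a + b := by omega
  rw [e1, e2]
  nlinarith [Nat.zero_le (a * a), Nat.zero_le (a * b), Nat.zero_le (t * a)]

theorem fmax_step {k δ z y q : ℕ} (hz : z ≤ y) (hq : q ≤ δ) (hqy : q ≤ y - z) (hzk : z ≤ k) :
    q * (k + δ - z) + fmax k z ≤ fmax (k + δ) y + δ ^ 2 := by
  obtain ⟨t, ht, h1⟩ := exists_fmax k z
  rw [h1]
  have h2 : (t + q) * (k + δ - (t + q)) ≤ fmax (k + δ) y := le_fmax (by omega)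
  obtain ⟨a, rfl⟩ : ∃ a, k = t + a := ⟨k - t, by omega⟩
  obtain ⟨b, rfl⟩ : ∃ b, δ = q + b := ⟨δ - q, by omega⟩
  have e1 : t + a + (q + b) - (t + q) = a + b := by omega
  have e2 : t + a - t = a := by omega
  have e3 : q * (t + a + (q + b) - z) ≤ q * (a + (q + b)) :=
    Nat.mul_le_mul_left q (by omega)
  rw [e1] at h2
  rw [e2]
  nlinarith [Nat.zero_le (t * b), Nat.zero_le (q * b), Nat.zero_le (b * b)]

theorem path_win {piv : ℕ → ℕ → ℕ → ℕ → Prop} (hm : MonoPiv piv) (p : ℕ → ℕ) (m : ℕ)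
    (hp : ∀ t t', t < t' → t' ≤ m → p t < p t')
    (T : ℕ → ℕ → Prop) (L δ : ℕ) (hδ : 0 < δ)
    (hrun : ∀ z a, a + 2 ^ z < m → ∃ t, a < t ∧ t ≤ a + 2 ^ z ∧ T z t)
    (hpiv : ∀ K z i t j, z ≤ K → i < t → t < j → j ≤ m → p j < p i + 2 ^ K → T z t →
      piv (K - z + L) i t j) (s : ℕ) :
    ∀ y i j, i < j → j ≤ m → p j < p i + 2 ^ (s * δ) → j ≤ i + 2 ^ (y + 1) →
      Win piv (fmax (s * δ) y + err δ L s) i j := by
  induction s with
  | zero =>
    intro y i j hij hj hw _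
    have := hp i j hij hj
    simp only [zero_mul, pow_zero] at hw
    omega
  | succ s ih =>
    intro y i j hij hj hw hc
    refine scale hm p m hp T L δ s hδ hrun hpiv (fun z => fmax (s * δ) z + err δ L s)
      (fun z i j h1 h2 h3 h4 => ih z i j h1 h2 h3 h4) y _ ?_ i j hij hj hw hc
    intro z hzy hzs
    set P := min (y - z) δ with hP
    have hP1 : P ≤ δ := min_le_right _ _
    have hP2 : P ≤ y - z := min_le_left _ _
    have hst := fmax_step (k := s * δ) (δ := δ) hzy hP1 hP2 hzs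
    have hK : (s + 1) * δ = s * δ + δ := by ring
    have h1 : z < (z / δ + 1) * δ := by
      have := Nat.lt_mul_div_succ z hδ
      rwa [mul_comm] at this
    have h2 : (s + 1) * δ - z / δ * δ + L ≤ (s * δ + δ - z) + (δ + L) := by
      have : (z / δ + 1) * δ = z / δ * δ + δ := by ring
      omega
    have h3 := Nat.mul_le_mul_right (P + 2 + 3 * (s + 1)) h2
    have h4 : (s * δ + δ - z + (δ + L)) * (P + 2 + 3 * (s + 1)) =
        P * (s * δ + δ - z) + (δ + L) * P + (s * δ + δ - z + (δ + L)) * (3 * s + 5) := by ring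
    have h5 : (δ + L) * P ≤ (δ + L) * δ := Nat.mul_le_mul_left _ hP1
    have h6 : (s * δ + δ - z + (δ + L)) * (3 * s + 5) ≤
        (s * δ + δ + (δ + L)) * (3 * s + 5) := Nat.mul_le_mul_right _ (by omega)
    have h7 : 2 * ((s + 1) * δ + L) * (s + 1) ≤ (s * δ + δ + (δ + L)) * (2 * s + 2) := by
      have : 2 * ((s + 1) * δ + L) * (s + 1) = (s * δ + δ + L) * (2 * s + 2) := by ring
      rw [this]
      exact Nat.mul_le_mul_right _ (by omega)
    have h8 : err δ L (s + 1) =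
        err δ L s + (2 * δ ^ 2 + L * δ) + ((s + 1) * δ + δ + L) * (5 * s + 7) := rfl
    have h9 : (s * δ + δ + (δ + L)) * (3 * s + 5) + (s * δ + δ + (δ + L)) * (2 * s + 2) =
        ((s + 1) * δ + δ + L) * (5 * s + 7) := by ring
    have h10 : (δ + L) * δ = δ ^ 2 + L * δ := by ring
    rw [h8, hK]
    rw [hK] at h3 h7 h9
    show fmax (s * δ) z + err δ L s + _ + _ ≤ _
    omega

end Pool.Agent.Lib.Pe46137Y
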