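import Pool.Agent.Lib.Pe46137Y.Stage

/-!
One scale, for a path: an interval of the path inside a window of `2 ^ ((s+1) δ)` positions is
reduced to intervals inside windows of `2 ^ (s δ)` positions.
-/

namespace Pool.Agent.Lib.Pe46137Y

theorem scale {piv : ℕ → ℕ → ℕ → ℕ → Prop} (hm : MonoPiv piv) (p : ℕ → ℕ) (m : ℕ)
    (hp : ∀ t t', t < t' → t' ≤ m → p t < p t')
    (T : ℕ → ℕ → Prop) (L δ s : ℕ) (hδ : 0 < δ)
    (hrun : ∀ z a, a + 2 ^ z < m → ∃ t, a < t ∧ t ≤ a + 2 ^ z ∧ T z t)
    (hpiv : ∀ K z i t j, z ≤ K → i < t → t < j → j ≤ m → p j < p i + 2 ^ K → T z t →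
      piv (K - z + L) i t j)
    (Eb : ℕ → ℕ)
    (hE : ∀ z i j, i < j → j ≤ m → p j < p i + 2 ^ (s * δ) → j ≤ i + 2 ^ (z + 1) →
      Win piv (Eb z) i j)
    (y Bt : ℕ)
    (hB : ∀ z, z ≤ y → z ≤ s * δ →
      Eb z + ((s + 1) * δ - z / δ * δ + L) * (min (y - z) δ + 2 + 3 * (s + 1)) +
        2 * ((s + 1) * δ + L) * (s + 1) ≤ Bt)
    (i j : ℕ) (hij : i < j) (hj : j ≤ m) (hw : p j < p i + 2 ^ ((s + 1) * δ))
    (hc : j ≤ i + 2 ^ (y + 1)) :
    Win piv Bt i j := by
  classical
  have hple : ∀ t t', t ≤ t' → t' ≤ m → p t ≤ p t' := fun t t' h h' => by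
    rcases h.lt_or_eq with h1 | h1
    · exact (hp t t' h1 h').le
    · rw [h1]
  set W : ℕ := 2 ^ (s * δ) with hW
  have hWK : 2 ^ ((s + 1) * δ) = 2 ^ δ * W := by rw [hW, ← pow_add]; congr 1; ring
  have h2δ : (0 : ℕ) < 2 ^ δ := by positivity
  -- the first index of piece r
  have hex : ∀ r, ∃ t, i < t ∧ (j ≤ t ∨ p i + (r - 1) * W ≤ p t) := fun r =>
    ⟨j, hij, Or.inl le_rfl⟩
  let f : ℕ → ℕ := fun r => if r = 0 then i else Nat.find (hex r)
  have hf0 : f 0 = i := by simp [f]
  have hfspec : ∀ r, 1 ≤ r → i < f r ∧ (j ≤ f r ∨ p i + (r - 1) * W ≤ p (f r)) := fun r hr => by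
    have : f r = Nat.find (hex r) := if_neg (by omega)
    rw [this]
    exact Nat.find_spec (hex r)
  have hfmin : ∀ r, 1 ≤ r → ∀ t, i < t → (j ≤ t ∨ p i + (r - 1) * W ≤ p t) → f r ≤ t :=
    fun r hr t h1 h2 => by
      have : f r = Nat.find (hex r) := if_neg (by omega)
      rw [this]
      exact Nat.find_min' (hex r) ⟨h1, h2⟩
  have hfj : ∀ r, 1 ≤ r → f r ≤ j := fun r hr => hfmin r hr j hij (Or.inl le_rfl)
  have hf1 : f 1 = i + 1 := by
    refine le_antisymm (hfmin 1 le_rfl (i + 1) (by omega) ?_) (hfspec 1 le_rfl).1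
    by_cases h : j ≤ i + 1
    · exact Or.inl h
    · right
      have := hp i (i + 1) (by omega) (by omega)
      simp only [Nat.sub_self, zero_mul, add_zero]
      exact this.le
  have hfh : f (2 ^ δ + 1) = j := by
    refine le_antisymm (hfj _ (by omega)) ?_
    rcases (hfspec (2 ^ δ + 1) (by omega)).2 with h | h
    · exact h
    · by_contra hc'
      push Not at hc'
      have h1 := hp _ _ hc' hj
      have h2 : 2 ^ δ + 1 - 1 = 2 ^ δ := by omega
      rw [h2, ← hWK] at h
      omega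
  have hfmono : ∀ r, 1 ≤ r → f r ≤ f (r + 1) := by
    intro r hr
    have h1 := hfspec (r + 1) (by omega)
    refine hfmin r hr _ h1.1 ?_
    rcases h1.2 with h2 | h2
    · exact Or.inl h2
    · right
      refine le_trans ?_ h2
      have h3 : (r - 1) * W ≤ (r + 1 - 1) * W := Nat.mul_le_mul_right _ (by omega)
      omega
  let e : ℕ → ℕ := fun r => f (r + 1) - 1
  have he0 : e 0 = i := by simp [e, hf1]
  have hfe : ∀ r ≤ 2 ^ δ, f (r + 1) = e r + 1 := by
    intro r _
    have := (hfspec (r + 1) (by omega)).1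
    simp only [e]
    omega
  have hfe' : ∀ r, f (r + 1) = e r + 1 := by
    intro r
    have := (hfspec (r + 1) (by omega)).1
    simp only [e]
    omega
  -- facts on the pieces
  have hpieceL : ∀ r, 1 ≤ r → ∀ t, f r ≤ t → t < j → p i + (r - 1) * W ≤ p t := by
    intro r hr t h1 h2
    rcases (hfspec r hr).2 with h3 | h3
    · omega
    · exact h3.trans (hple _ _ h1 (by omega))
  have hpieceU : ∀ r, 1 ≤ r → ∀ t, i < t → t ≤ e r → t < j ∧ p t < p i + r * W := by
    intro r hr t h1 h2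
    have h3 : t < f (r + 1) := by rw [hfe' r]; omega
    have h4 : t < j := h3.trans_le (hfj _ (by omega))
    refine ⟨h4, ?_⟩
    by_contra h5
    push Not at h5
    have h6 := hfmin (r + 1) (by omega) t h1 (Or.inr (by simpa using h5))
    omega
  have hpiece2 : ∀ r, 1 ≤ r → ∀ t t', f r ≤ t → t ≤ t' → t' ≤ e r → p t' < p t + W := by
    intro r hr t t' h1 h2 h3
    have hi := (hfspec r hr).1
    have h4 := hpieceU r hr t' (by omega) h3
    have h5 := hpieceL r hr t h1 (by omega)
    have h6 : r * W = (r - 1) * W + W := by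
      obtain ⟨r', rfl⟩ : ∃ r', r = r' + 1 := ⟨r - 1, by omega⟩
      simp [add_mul]
    omega
  let N : ℕ → ℕ := fun r => f (r + 1) - f r
  have hNe : ∀ r, 1 ≤ r → f r ≤ e r → N r = e r + 1 - f r ∧ 1 ≤ N r ∧ N r ≤ W := by
    intro r hr hle
    have h1 : N r = e r + 1 - f r := by simp only [N]; rw [hfe' r]
    refine ⟨h1, by omega, ?_⟩
    have hi := (hfspec r hr).1
    have hj' := (hpieceU r hr (e r) (by omega) le_rfl).1
    have h2 := hpiece2 r hr (f r) (e r) le_rfl hle le_rfl
    have h3 : ∀ k, f r + k ≤ e r → p (f r) + k ≤ p (f r + k) := by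
      intro k
      induction k with
      | zero => intro _; simp
      | succ k ih =>
        intro hk
        have h4 := ih (by omega)
        have h5 := hp (f r + k) (f r + (k + 1)) (by omega) (by omega)
        omega
    have h4 := h3 (e r - f r) (by omega)
    have h5 : f r + (e r - f r) = e r := by omega
    rw [h5] at h4
    omega
  have hzs : ∀ r, 1 ≤ r → f r ≤ e r → Nat.log 2 (N r) ≤ s * δ := by
    intro r hr hle
    calc Nat.log 2 (N r) ≤ Nat.log 2 W := Nat.log_mono_right (hNe r hr hle).2.2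
      _ = s * δ := by rw [hW, Nat.log_pow (by norm_num)]
  have hzy : ∀ r, 1 ≤ r → f r ≤ e r → Nat.log 2 (N r) ≤ y := by
    intro r hr hle
    have h1 := (hNe r hr hle).1
    have h2 := (hNe r hr hle).2.1
    have hi := (hfspec r hr).1
    have h3 : e r < j := (hpieceU r hr (e r) (by omega) le_rfl).1
    have h4 : N r < 2 ^ (y + 1) := by omega
    have := Nat.log_lt_of_lt_pow (by omega : N r ≠ 0) h4
    omega
  -- representatives
  have hrep : ∀ r, ∃ t, 1 ≤ r → f r ≤ e r →
      f r ≤ t ∧ t ≤ e r ∧ T (Nat.log 2 (N r) / δ * δ) t := by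
    intro r
    by_cases hr : 1 ≤ r ∧ f r ≤ e r
    · obtain ⟨hr, hle⟩ := hr
      have h1 := hNe r hr hle
      have hi := (hfspec r hr).1
      have h3 : e r < j := (hpieceU r hr (e r) (by omega) le_rfl).1
      have h4 : 2 ^ (Nat.log 2 (N r) / δ * δ) ≤ N r := by
        refine (Nat.pow_le_pow_right (by norm_num) (Nat.div_mul_le_self _ _)).trans ?_
        exact Nat.pow_log_le_self 2 (by omega)
      obtain ⟨t, ht1, ht2, ht3⟩ := hrun (Nat.log 2 (N r) / δ * δ) (f r - 1) (by omega)
      exact ⟨t, fun _ _ => ⟨by omega, by omega, ht3⟩⟩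
    · exact ⟨0, fun h1 h2 => absurd ⟨h1, h2⟩ hr⟩
  choose ρ hρ using hrep
  let ω : ℕ → ℕ := fun r => 2 ^ δ * N r + 2 ^ (y + 1)
  have hT0 : ∀ t, i < t → t < j → T 0 t := by
    intro t h1 h2
    obtain ⟨t', h3, h4, h5⟩ := hrun 0 (t - 1) (by rw [pow_zero]; omega)
    rw [pow_zero] at h4
    have : t' = t := by omega
    rwa [this] at h5
  -- total weight
  have hsumN : ∀ k, ∑ r ∈ Finset.Ioo 0 (k + 1), N r = f (k + 1) - f 1 := by
    intro k
    induction k with
    | zero =>
      have h0 : Finset.Ioo 0 (0 + 1) = (∅ : Finset ℕ) := by decide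
      rw [h0]
      simp
    | succ k ih =>
      have h1 : Finset.Ioo 0 (k + 1 + 1) = insert (k + 1) (Finset.Ioo 0 (k + 1)) := by
        ext a
        simp only [Finset.mem_Ioo, Finset.mem_insert]
        omega
      rw [h1, Finset.sum_insert (by simp), ih]
      have h2 := hfmono (k + 1) (by omega)
      have h3 := hf1
      have h4 := (hfspec (k + 1) (by omega)).1
      simp only [N]
      omega
  have hsum : ∑ r ∈ Finset.Ioo 0 (2 ^ δ + 1), ω r ≤ 2 ^ (δ + y + 2) := by
    have h1 : ∑ r ∈ Finset.Ioo 0 (2 ^ δ + 1), ω r =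
        2 ^ δ * ∑ r ∈ Finset.Ioo 0 (2 ^ δ + 1), N r + 2 ^ δ * 2 ^ (y + 1) := by
      simp only [ω]
      rw [Finset.sum_add_distrib, Finset.mul_sum, Finset.sum_const, Nat.card_Ioo]
      simp
    rw [h1, hsumN, hfh, hf1]
    have h2 : j - (i + 1) ≤ 2 ^ (y + 1) := by omega
    have h3 := Nat.mul_le_mul_left (2 ^ δ) h2
    have h4 : 2 ^ (δ + y + 2) = 2 * (2 ^ δ * 2 ^ (y + 1)) := by ring
    omega
  have hmain := stage hm (2 ^ δ) i j f e ρ ω (fun r => Eb (Nat.log 2 (N r)))
    (fun r => Nat.log 2 (N r) / δ) (fun q => (s + 1) * δ - q * δ + L) ((s + 1) * δ + L)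
    hfe (by rw [he0]) (by rw [hfh])
    (fun r hr _ => by rw [← hfe' r]; exact hfmono r hr)
    (fun r hr _ hle => ⟨(hρ r hr hle).1, (hρ r hr hle).2.1⟩)
    (fun q q' h => by
      have := Nat.mul_le_mul_right δ h
      show (s + 1) * δ - q' * δ + L ≤ (s + 1) * δ - q * δ + L
      omega)
    (fun r hr _ hle => by
      have h1 := hρ r hr hle
      have hi := (hfspec r hr).1
      have h3 : e r < j := (hpieceU r hr (e r) (by omega) le_rfl).1
      refine hpiv ((s + 1) * δ) _ i (ρ r) j ?_ (by omega) (by omega) hj hw h1.2.2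
      have h4 := Nat.div_mul_le_self (Nat.log 2 (N r)) δ
      have h5 := hzs r hr hle
      have h6 : (s + 1) * δ = s * δ + δ := by ring
      omega)
    (fun t h1 h2 => by
      have := hpiv ((s + 1) * δ) 0 i t j (Nat.zero_le _) h1 h2 hj hw (hT0 t h1 h2)
      simpa using this)
    (fun r hr _ t t' h1 h2 h3 => by
      have hle : f r ≤ e r := by omega
      have hi := (hfspec r hr).1
      have h4 := hpieceU r hr t' (by omega) h3
      refine hE _ t t' h2 (by omega) (hpiece2 r hr t t' h1 h2.le h3) ?_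
      have h5 := (hNe r hr hle).1
      have h6 := Nat.lt_pow_succ_log_self (b := 2) (by norm_num) (N r)
      omega)
    (fun r _ _ => by simp only [ω]; positivity)
    (s + 1) 0 (2 ^ δ + 1) (δ + y + 2) Bt (by omega) le_rfl
    (fun r hr _ hle => by
      have h1 := hzs r (by omega) hle
      have h2 : Nat.log 2 (N r) / δ ≤ s * δ / δ := Nat.div_le_div_right h1
      rw [Nat.mul_div_cancel _ hδ] at h2
      show Nat.log 2 (N r) / δ < s + 1
      omega)
    hsum
    (fun r hr _ hle => by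
      have h1 := hzy r (by omega) hle
      have h2 := hzs r (by omega) hle
      refine le_trans ?_ (hB (Nat.log 2 (N r)) h1 h2)
      have h3 : δ + Nat.log 2 (N r) ≤ Nat.log 2 (ω r) := by
        have h4 : 2 ^ (δ + Nat.log 2 (N r)) ≤ ω r := by
          simp only [ω]
          rw [pow_add]
          have h5 := Nat.pow_log_le_self 2 (x := N r) (by have := (hNe r (by omega) hle).2.1; omega)
          have h6 := Nat.mul_le_mul_left (2 ^ δ) h5
          omega
        calc δ + Nat.log 2 (N r) = Nat.log 2 (2 ^ (δ + Nat.log 2 (N r))) := by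
              rw [Nat.log_pow (by norm_num)]
          _ ≤ _ := Nat.log_mono_right h4
      have h4 : y + 1 ≤ Nat.log 2 (ω r) := by
        have h5 : 2 ^ (y + 1) ≤ ω r := by simp only [ω]; omega
        calc y + 1 = Nat.log 2 (2 ^ (y + 1)) := by rw [Nat.log_pow (by norm_num)]
          _ ≤ _ := Nat.log_mono_right h5
      have h5 : δ + y + 2 + 3 * (s + 1) - Nat.log 2 (ω r) ≤
          min (y - Nat.log 2 (N r)) δ + 2 + 3 * (s + 1) := by
        rcases le_total (y - Nat.log 2 (N r)) δ with h6 | h6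
        · rw [min_eq_left h6]; omega
        · rw [min_eq_right h6]; omega
      have h6 := Nat.mul_le_mul_left ((s + 1) * δ - Nat.log 2 (N r) / δ * δ + L) h5
      show Eb (Nat.log 2 (N r)) + ((s + 1) * δ - Nat.log 2 (N r) / δ * δ + L) *
        (δ + y + 2 + 3 * (s + 1) - Nat.log 2 (ω r)) + 2 * ((s + 1) * δ + L) * (s + 1) ≤ _
      omega)
  rw [he0, hfh] at hmain
  exact hmain

end Pool.Agent.Lib.Pe46137Y
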