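import Pool.Agent.Lib.Pe46137Y.Win

/-!
Weighted search (alphabetic code): keys `x ∈ X`, gap with left end `x` has weight `w x` and can be
verified with budget `B x`; a gap of weight `w` lies at depth at most `G + 1 - log w`.
-/

namespace Pool.Agent.Lib.Pe46137Y

namespace SearchAux

/-- Twice the midpoint of the gap with left end `x`. -/
def mid (X : Finset ℕ) (w : ℕ → ℕ) (x : ℕ) : ℕ := 2 * ∑ z ∈ X.filter (· < x), w z + w x

theorem mid_add {X : Finset ℕ} {w : ℕ → ℕ} {x y : ℕ} (hx : x ∈ X) (hxy : x < y) :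
    mid X w x + w x + w y ≤ mid X w y := by
  have h1 : ∑ z ∈ X.filter (· < x), w z + w x ≤ ∑ z ∈ X.filter (· < y), w z := by
    have h2 : ∑ z ∈ insert x (X.filter (· < x)), w z = w x + ∑ z ∈ X.filter (· < x), w z :=
      Finset.sum_insert (by simp)
    rw [add_comm, ← h2]
    refine Finset.sum_le_sum_of_subset fun z hz => ?_
    simp only [Finset.mem_insert, Finset.mem_filter] at hz ⊢
    rcases hz with rfl | ⟨h3, h4⟩
    · exact ⟨hx, hxy⟩
    · exact ⟨h3, h4.trans hxy⟩
  unfold mid
  omega

theorem main {piv : ℕ → ℕ → ℕ → ℕ → Prop} (X : Finset ℕ) (u w B : ℕ → ℕ)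
    (C b : ℕ)
    (hu : ∀ x ∈ X, ∀ y ∈ X, x < y → u x < u y)
    (hpiv : ∀ x ∈ X, ∀ y ∈ X, ∀ z ∈ X, x < y → y < z → z ≤ b → piv C (u x) (u y) (u z))
    (hw : ∀ x ∈ X, x < b → 0 < w x)
    (hgap : ∀ x ∈ X, ∀ y ∈ X, x < y → (∀ z ∈ X, z ≤ x ∨ y ≤ z) → Win piv (B x) (u x) (u y))
    (d : ℕ) : ∀ (x y Bt : ℕ), x ∈ X → y ∈ X → x < y → y ≤ b →
      (∀ z ∈ X, x ≤ z → z < y → mid X w z < mid X w x + 2 ^ (d + 1)) →
      (∀ z ∈ X, x ≤ z → z < y → B z + C * (d + 1 - Nat.log 2 (w z)) ≤ Bt) →
      Win piv Bt (u x) (u y) := by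
  induction d with
  | zero =>
    intro x y Bt hx hy hxy hyb hM hB
    -- no key strictly between
    refine (hgap x hx y hy hxy fun z hz => ?_).mono ?_
    · by_contra hc
      push Not at hc
      have h1 := hM z hz hc.1.le hc.2
      have h2 := mid_add (w := w) hx hc.1
      have h3 := hw x hx (hxy.trans_le hyb)
      have h4 := hw z hz (hc.2.trans_le hyb)
      omega
    · have := hB x hx le_rfl hxy
      omega
  | succ d ih =>
    intro x y Bt hx hy hxy hyb hM hB
    by_cases hone : ∀ z ∈ X, z ≤ x ∨ y ≤ z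
    · exact (hgap x hx y hy hxy hone).mono (by have := hB x hx le_rfl hxy; omega)
    · -- at least two gaps, so every weight is small
      push Not at hone
      obtain ⟨z0, hz0, hz0x, hz0y⟩ := hone
      by_cases hc : ∀ z ∈ X, x ≤ z → z < y → mid X w z < mid X w x + 2 ^ (d + 1)
      · refine ih x y Bt hx hy hxy hyb hc fun z hz h1 h2 => le_trans ?_ (hB z hz h1 h2)
        have : d + 1 - Nat.log 2 (w z) ≤ d + 1 + 1 - Nat.log 2 (w z) := by omega
        exact Nat.add_le_add_left (Nat.mul_le_mul_left C this) _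
      · push Not at hc
        -- the least key beyond the middle
        have hex : ∃ z, z ∈ X ∧ x ≤ z ∧ z < y ∧ mid X w x + 2 ^ (d + 1) ≤ mid X w z := hc
        obtain ⟨c, ⟨hcX, hxc', hcy, hcm⟩, hcmin⟩ :
            ∃ c, (c ∈ X ∧ x ≤ c ∧ c < y ∧ mid X w x + 2 ^ (d + 1) ≤ mid X w c) ∧
            ∀ c' < c, ¬ (c' ∈ X ∧ x ≤ c' ∧ c' < y ∧ mid X w x + 2 ^ (d + 1) ≤ mid X w c') :=
          ⟨Nat.find hex, Nat.find_spec hex, fun c' h => Nat.find_min hex h⟩
        have hxc : x < c := by
          rcases hxc'.lt_or_eq with h | h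
          · exact h
          · subst h
            have : 0 < 2 ^ (d + 1) := by positivity
            omega
        -- all weights are below 2 ^ (d + 2)
        have hlog : ∀ z ∈ X, x ≤ z → z < y → Nat.log 2 (w z) ≤ d + 1 := by
          intro z hz h1 h2
          have h3 : w z < 2 ^ (d + 1 + 1) := by
            by_cases hzc : z < z0
            · have h4 := mid_add (w := w) hz hzc
              have h5 := hM z0 hz0 hz0x.le hz0y
              have h6 : mid X w x ≤ mid X w z := by
                rcases h1.lt_or_eq with h | h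
                · have := mid_add (w := w) hx h
                  omega
                · rw [h]
              have h7 := hw z0 hz0 (hz0y.trans_le hyb)
              omega
            · have h4 := hM z hz h1 h2
              have h8 : x < z := by omega
              have h5 := mid_add (w := w) hx h8
              have h7 := hw x hx (hxy.trans_le hyb)
              omega
          have h9 : Nat.log 2 (w z) < d + 1 + 1 := Nat.log_lt_of_lt_pow (hw z hz (h2.trans_le hyb)).ne' h3
          omega
        have hCB : C ≤ Bt := by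
          have h1 := hB x hx le_rfl hxy
          have h2 := hlog x hx le_rfl hxy
          have h3 : 1 ≤ d + 1 + 1 - Nat.log 2 (w x) := by omega
          have h4 : C * 1 ≤ C * (d + 1 + 1 - Nat.log 2 (w x)) := Nat.mul_le_mul_left C h3
          omega
        have hstep : ∀ z ∈ X, x ≤ z → z < y →
            B z + C * (d + 1 - Nat.log 2 (w z)) ≤ Bt - C := by
          intro z hz h1 h2
          have h3 := hB z hz h1 h2
          have h4 := hlog z hz h1 h2
          have h5 : C * (d + 1 + 1 - Nat.log 2 (w z)) = C * (d + 1 - Nat.log 2 (w z)) + C := by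
            have : d + 1 + 1 - Nat.log 2 (w z) = (d + 1 - Nat.log 2 (w z)) + 1 := by omega
            rw [this, mul_add, mul_one]
          omega
        refine Win.step' (hu x hx c hcX hxc) (hu c hcX y hy hcy)
          (hpiv x hx c hcX y hy hxc hcy hyb)
          (ih x c (Bt - C) hx hcX hxc (hcy.le.trans hyb) ?_ ?_)
          (ih c y (Bt - C) hcX hy hcy hyb ?_ ?_) (by omega)
        · intro z hz h1 h2
          by_contra h3
          push Not at h3
          exact hcmin z h2 ⟨hz, h1, h2.trans hcy, h3⟩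
        · exact fun z hz h1 h2 => hstep z hz h1 (h2.trans hcy)
        · intro z hz h1 h2
          have h3 := hM z hz (hxc.le.trans h1) h2
          rw [pow_succ] at h3
          omega
        · exact fun z hz h1 h2 => hstep z hz (hxc.le.trans h1) h2

end SearchAux

open SearchAux in
theorem search {piv : ℕ → ℕ → ℕ → ℕ → Prop} (hm : MonoPiv piv) (X : Finset ℕ) (u w B : ℕ → ℕ)
    (C a b : ℕ) (ha : a ∈ X) (hb : b ∈ X) (hX : ∀ x ∈ X, a ≤ x ∧ x ≤ b) (hab : a < b)
    (hu : ∀ x ∈ X, ∀ y ∈ X, x < y → u x < u y)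
    (hpiv : ∀ x ∈ X, a < x → x < b → piv C (u a) (u x) (u b))
    (hw : ∀ x ∈ X, x < b → 0 < w x)
    (hgap : ∀ x ∈ X, ∀ y ∈ X, x < y → (∀ z ∈ X, z ≤ x ∨ y ≤ z) → Win piv (B x) (u x) (u y))
    (G Bt : ℕ) (hG : ∑ x ∈ X.erase b, w x ≤ 2 ^ G)
    (hB : ∀ x ∈ X, x < b → B x + C * (G + 1 - Nat.log 2 (w x)) ≤ Bt) :
    Win piv Bt (u a) (u b) := by
  refine main X u w B C b hu ?_ hw hgap G a b Bt ha hb hab le_rfl ?_ ?_
  · intro x hx y hy z hz hxy hyz hzb
    have h1 : u a ≤ u x := by
      rcases (hX x hx).1.lt_or_eq with h | h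
      · exact (hu a ha x hx h).le
      · rw [h]
    have h2 : u z ≤ u b := by
      rcases hzb.lt_or_eq with h | h
      · exact (hu z hz b hb h).le
      · rw [h]
    exact hm C C (u a) (u x) (u y) (u b) (u z) le_rfl h1 (hu x hx y hy hxy) (hu y hy z hz hyz) h2
      (hpiv y hy (lt_of_le_of_lt (hX x hx).1 hxy) (lt_of_lt_of_le hyz hzb))
  · intro z hz h1 h2
    have h3 : ∑ r ∈ X.filter (· < z), w r + w z ≤ ∑ x ∈ X.erase b, w x := by
      have h4 : ∑ r ∈ insert z (X.filter (· < z)), w r = w z + ∑ r ∈ X.filter (· < z), w r :=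
        Finset.sum_insert (by simp)
      rw [add_comm, ← h4]
      refine Finset.sum_le_sum_of_subset fun r hr => ?_
      simp only [Finset.mem_insert, Finset.mem_filter, Finset.mem_erase] at hr ⊢
      rcases hr with rfl | ⟨h5, h6⟩
      · exact ⟨h2.ne, hz⟩
      · exact ⟨(h6.trans h2).ne, h5⟩
    have h5 := hw z hz h2
    have h6 : w a ≤ mid X w a := by unfold mid; omega
    have h7 := hw a ha hab
    have h8 : mid X w z < 2 ^ (G + 1) := by
      unfold mid
      rw [pow_succ]
      omega
    omega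
  · intro z hz h1 h2
    exact hB z hz h2

end Pool.Agent.Lib.Pe46137Y
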