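import Pool.Agent.Lib.Pe46137P.Iso

/-!
Milestones for sorted digraphs: one random vertex in every block of length `2 ^ (z - r)`.
-/

namespace Pool.Agent.Lib.Pe46137Y

open Finset

/-- extension of a seed to the natural numbers -/
def ext {n M : ℕ} (o : Fin n → Fin M) (β : ℕ) : ℕ := if h : β < n then (o ⟨β, h⟩ : ℕ) else 0

/-- the milestones of kind `z`: vertex `w` is chosen if its offset in its block of length
`2 ^ (z - r)` is the offset prescribed by the seed `o` for this block -/
def mile {n M : ℕ} (r : ℕ) (o : Fin n → Fin M) (z : ℕ) : Finset (Fin n) :=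
  univ.filter fun w => (w : ℕ) % 2 ^ (z - r) = ext o ((w : ℕ) / 2 ^ (z - r)) % 2 ^ (z - r)

theorem mem_mile {n M r : ℕ} {o : Fin n → Fin M} {z : ℕ} {w : Fin n} :
    w ∈ mile r o z ↔
      (w : ℕ) % 2 ^ (z - r) = ext o ((w : ℕ) / 2 ^ (z - r)) % 2 ^ (z - r) := by
  simp [mile]

/-- density of the milestones -/
theorem mile_density {n M r : ℕ} (o : Fin n → Fin M) (z K : ℕ) (hzK : z ≤ K)
    (a b : Fin n) (hb : (b : ℕ) < a + 2 ^ K) :
    ((mile r o z).filter fun w => a < w ∧ w < b).card ≤ 2 ^ (K - z + (r + 1)) := by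
  have hlam0 : 0 < 2 ^ (z - r) := by positivity
  -- the block determines the milestone
  have hinj : ((mile r o z).filter fun w => a < w ∧ w < b).card ≤
      (Icc ((a : ℕ) / 2 ^ (z - r)) ((b : ℕ) / 2 ^ (z - r))).card := by
    refine card_le_card_of_injOn (fun w => (w : ℕ) / 2 ^ (z - r)) ?_ ?_
    · intro w hw
      simp only [coe_filter, Set.mem_ofPred_eq] at hw
      simp only [coe_Icc, Set.mem_Icc]
      exact ⟨Nat.div_le_div_right (by have := hw.2.1; rw [Fin.lt_def] at this; omega),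
        Nat.div_le_div_right (by have := hw.2.2; rw [Fin.lt_def] at this; omega)⟩
    · intro w hw w' hw' h
      simp only [coe_filter, Set.mem_ofPred_eq, mem_mile] at hw hw'
      simp only at h
      apply Fin.ext
      rw [← Nat.div_add_mod (w : ℕ) (2 ^ (z - r)), ← Nat.div_add_mod (w' : ℕ) (2 ^ (z - r)),
        hw.1, hw'.1, h]
  refine hinj.trans ?_
  rw [Nat.card_Icc]
  have h2 : 2 ^ K = 2 ^ (K - (z - r)) * 2 ^ (z - r) := by
    rw [← pow_add]; congr 1; omega
  have h1 : (b : ℕ) / 2 ^ (z - r) < (a : ℕ) / 2 ^ (z - r) + 1 + 2 ^ (K - (z - r)) := by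
    rw [Nat.div_lt_iff_lt_mul hlam0, add_mul, ← h2]
    have h6 : (a : ℕ) < ((a : ℕ) / 2 ^ (z - r) + 1) * 2 ^ (z - r) := by
      have := Nat.lt_mul_div_succ (a : ℕ) hlam0
      rwa [mul_comm] at this
    omega
  have h3 : 2 ^ (K - (z - r)) ≤ 2 ^ (K - z + r) := Nat.pow_le_pow_right (by norm_num) (by omega)
  have h4 : 2 ^ (K - z + (r + 1)) = 2 * 2 ^ (K - z + r) := by ring
  have h5 : 0 < 2 ^ (K - z + r) := by positivity
  omega

/-- number of seeds for one block that avoid the residues of `A` -/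
theorem card_avoid (M lam : ℕ) (hlam : 0 < lam) (hd : lam ∣ M) (A : Finset ℕ)
    (hA : A ⊆ range lam) :
    lam * ((univ : Finset (Fin M)).filter fun x : Fin M => (x : ℕ) % lam ∉ A).card =
      (lam - A.card) * M := by
  classical
  obtain ⟨c, rfl⟩ := hd
  have h1 : ((univ : Finset (Fin (lam * c))).filter fun x : Fin (lam * c) => (x : ℕ) % lam ∉ A).card =
      ((range lam \ A) ×ˢ range c).card := by
    refine card_bij' (fun (x : Fin (lam * c)) _ => ((x : ℕ) % lam, (x : ℕ) / lam))
      (fun (p : ℕ × ℕ) hp => (⟨p.1 + lam * p.2, by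
        simp only [mem_product, mem_sdiff, mem_range] at hp
        calc p.1 + lam * p.2 < lam + lam * p.2 := by omega
          _ = lam * (p.2 + 1) := by ring
          _ ≤ lam * c := Nat.mul_le_mul_left _ hp.2⟩ : Fin (lam * c))) ?_ ?_ ?_ ?_
    · intro x hx
      simp only [mem_filter, mem_univ, true_and] at hx
      simp only [mem_product, mem_sdiff, mem_range]
      exact ⟨⟨Nat.mod_lt _ hlam, hx⟩, Nat.div_lt_of_lt_mul x.2⟩
    · intro p hp
      simp only [mem_product, mem_sdiff, mem_range] at hp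
      simp only [mem_filter, mem_univ, true_and, Nat.add_mul_mod_self_left]
      rw [Nat.mod_eq_of_lt hp.1.1]
      exact hp.1.2
    · intro x _
      apply Fin.ext
      exact Nat.mod_add_div _ _
    · intro p hp
      simp only [mem_product, mem_sdiff, mem_range] at hp
      ext
      · simp only [Nat.add_mul_mod_self_left]
        exact Nat.mod_eq_of_lt hp.1.1
      · simp only
        rw [Nat.add_mul_div_left _ _ hlam, Nat.div_eq_of_lt hp.1.1, zero_add]
  rw [h1, card_product, card_sdiff_of_subset hA, card_range, card_range]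
  ring

/-- seeds that miss the set `R` -/
theorem card_miss {n M : ℕ} (r z : ℕ) (hM : 2 ^ (z - r) ∣ M) (hM0 : 0 < M)
    (R : Finset (Fin n)) :
    (((univ : Finset (Fin n → Fin M)).filter fun o => ∀ w ∈ R, w ∉ mile r o z).card : ℝ) ≤
      (M : ℝ) ^ n * Real.exp (-((R.card : ℝ) / 2 ^ (z - r))) := by
  classical
  have hlam0 : 0 < 2 ^ (z - r) := by positivity
  let Rb : Fin n → Finset (Fin n) := fun β => R.filter fun w : Fin n => (w : ℕ) / 2 ^ (z - r) = (β : ℕ)
  let A : Fin n → Finset ℕ := fun β => (Rb β).image fun w : Fin n => (w : ℕ) % 2 ^ (z - r)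
  let Bs : Fin n → Finset (Fin M) := fun β =>
    univ.filter fun x : Fin M => (x : ℕ) % 2 ^ (z - r) ∉ A β
  have hA : ∀ β, A β ⊆ range (2 ^ (z - r)) := by
    intro β a ha
    simp only [A, mem_image] at ha
    obtain ⟨w, _, rfl⟩ := ha
    exact mem_range.mpr (Nat.mod_lt _ hlam0)
  have hAc : ∀ β, (A β).card = (Rb β).card := by
    intro β
    refine card_image_of_injOn fun w hw w' hw' h => ?_
    simp only [Rb, coe_filter, Set.mem_ofPred_eq] at hw hw'
    apply Fin.ext
    rw [← Nat.div_add_mod (w : ℕ) (2 ^ (z - r)), ← Nat.div_add_mod (w' : ℕ) (2 ^ (z - r)),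
      hw.2, hw'.2, h]
  have hsub : ((univ : Finset (Fin n → Fin M)).filter fun o => ∀ w ∈ R, w ∉ mile r o z) ⊆
      Fintype.piFinset Bs := by
    intro o ho
    simp only [mem_filter, mem_univ, true_and] at ho
    rw [Fintype.mem_piFinset]
    intro β
    simp only [Bs, A, mem_filter, mem_univ, true_and, mem_image, not_exists, not_and]
    intro w hw heq
    simp only [Rb, mem_filter] at hw
    apply ho w hw.1
    rw [mem_mile, heq, hw.2]
    simp [ext]
  have hBc : ∀ β, ((Bs β).card : ℝ) ≤ M * Real.exp (-(((Rb β).card : ℝ) / 2 ^ (z - r))) := by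
    intro β
    have h1 := card_avoid M (2 ^ (z - r)) hlam0 hM (A β) (hA β)
    have hle : (A β).card ≤ 2 ^ (z - r) := by
      have := card_le_card (hA β)
      rwa [card_range] at this
    have h2 : (2 ^ (z - r) : ℝ) * (Bs β).card = (2 ^ (z - r) - (Rb β).card) * M := by
      rw [← hAc β]
      have h3 : ((2 ^ (z - r) * (Bs β).card : ℕ) : ℝ) = (((2 ^ (z - r) - (A β).card) * M : ℕ) : ℝ) := by
        exact_mod_cast h1
      push_cast [Nat.cast_sub hle] at h3
      exact h3
    have hl : (0 : ℝ) < 2 ^ (z - r) := by positivity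
    have h4 : ((Bs β).card : ℝ) = M * (1 - ((Rb β).card : ℝ) / 2 ^ (z - r)) := by
      field_simp
      linarith
    rw [h4]
    refine mul_le_mul_of_nonneg_left ?_ (by positivity)
    have := Real.add_one_le_exp (-(((Rb β).card : ℝ) / 2 ^ (z - r)))
    linarith
  have hsum : ∑ β : Fin n, (Rb β).card = R.card := by
    symm
    have hmap : ∀ w ∈ R, (⟨(w : ℕ) / 2 ^ (z - r),
        (Nat.div_le_self _ _).trans_lt w.2⟩ : Fin n) ∈ (univ : Finset (Fin n)) :=
      fun w _ => mem_univ _
    rw [card_eq_sum_card_fiberwise hmap]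
    refine sum_congr rfl fun β _ => ?_
    congr 1
    ext w
    simp only [Rb, mem_filter, Fin.ext_iff]
  calc (((univ : Finset (Fin n → Fin M)).filter fun o => ∀ w ∈ R, w ∉ mile r o z).card : ℝ)
      ≤ ((Fintype.piFinset Bs).card : ℝ) := by exact_mod_cast card_le_card hsub
    _ = ∏ β : Fin n, ((Bs β).card : ℝ) := by rw [Fintype.card_piFinset]; push_cast; rfl
    _ ≤ ∏ β : Fin n, ((M : ℝ) * Real.exp (-(((Rb β).card : ℝ) / 2 ^ (z - r)))) :=
        prod_le_prod (fun β _ => by positivity) fun β _ => hBc β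
    _ = (M : ℝ) ^ n * Real.exp (-((R.card : ℝ) / 2 ^ (z - r))) := by
        rw [prod_mul_distrib, prod_const, card_univ, Fintype.card_fin, ← Real.exp_sum]
        congr 2
        rw [sum_neg_distrib, ← sum_div, ← hsum]
        push_cast
        rfl

/-- the vertices of the window `[a, a + 2 ^ z)` of the sequence `v` -/
def wnd {n : ℕ} (v : Fin n → Fin n) (z a : ℕ) : Finset (Fin n) :=
  (univ.filter fun t : Fin n => a ≤ (t : ℕ) ∧ (t : ℕ) < a + 2 ^ z).image v

/-- few seeds suffice for all sequences of vertices -/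
theorem exists_seeds {n q r : ℕ} (hq1 : 1 ≤ q) (hnq : n ≤ 2 ^ q) (hqr : 3 * q ≤ 2 ^ r) :
    ∃ ws : Finset (Fin n → Fin (2 ^ q)), ws.card ≤ q * n + 1 ∧
      ∀ v : Fin n → Fin n, ∃ o ∈ ws, ∀ z ≤ q, ∀ a < n, 2 ^ z ≤ (wnd v z a).card →
        ∃ w ∈ wnd v z a, w ∈ mile r o z := by
  classical
  let good : (Fin n → Fin n) → (Fin n → Fin (2 ^ q)) → Prop := fun v o =>
    ∀ z ≤ q, ∀ a < n, 2 ^ z ≤ (wnd v z a).card → ∃ w ∈ wnd v z a, w ∈ mile r o z
  have hhalf : ∀ v : Fin n → Fin n, 2 * ((univ : Finset (Fin n → Fin (2 ^ q))).filter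
      (fun o => ¬ good v o)).card ≤ Fintype.card (Fin n → Fin (2 ^ q)) := by
    intro v
    -- the union bound
    have hsub : ((univ : Finset (Fin n → Fin (2 ^ q))).filter (fun o => ¬ good v o)) ⊆
        ((range (q + 1) ×ˢ range n).filter (fun p => r ≤ p.1 ∧ 2 ^ p.1 ≤ (wnd v p.1 p.2).card)).biUnion
          fun p => (univ : Finset (Fin n → Fin (2 ^ q))).filter
            (fun o => ∀ w ∈ wnd v p.1 p.2, w ∉ mile r o p.1) := by
      intro o ho
      simp only [mem_filter, mem_univ, true_and, good, not_forall, not_exists, not_and] at ho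
      obtain ⟨z, hz, a, ha, hc, hmiss⟩ := ho
      simp only [mem_biUnion, mem_filter, mem_product, mem_range, mem_univ, true_and, Prod.exists]
      refine ⟨z, a, ⟨⟨by omega, ha⟩, ?_, hc⟩, hmiss⟩
      by_contra hzr
      -- blocks of length one
      have h0 : z - r = 0 := by omega
      have hne : (wnd v z a).Nonempty := by
        rw [← card_pos]
        exact lt_of_lt_of_le (by positivity) hc
      obtain ⟨w, hw⟩ := hne
      apply hmiss w hw
      rw [mem_mile, h0]
      simp [Nat.mod_one]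
    have hcard : ((((univ : Finset (Fin n → Fin (2 ^ q))).filter (fun o => ¬ good v o)).card : ℕ) : ℝ)
        ≤ ((q + 1) * n : ℕ) * (((2 ^ q : ℕ) : ℝ) ^ n * Real.exp (-(3 * q : ℕ))) := by
      have h1 := (card_le_card hsub).trans card_biUnion_le
      have h2 : ((((univ : Finset (Fin n → Fin (2 ^ q))).filter (fun o => ¬ good v o)).card : ℕ) : ℝ)
          ≤ ∑ p ∈ (range (q + 1) ×ˢ range n).filter
            (fun p => r ≤ p.1 ∧ 2 ^ p.1 ≤ (wnd v p.1 p.2).card),
            (((univ : Finset (Fin n → Fin (2 ^ q))).filter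
              (fun o => ∀ w ∈ wnd v p.1 p.2, w ∉ mile r o p.1)).card : ℝ) := by
        exact_mod_cast h1
      refine h2.trans ?_
      have h3 : ∀ p ∈ (range (q + 1) ×ˢ range n).filter
          (fun p => r ≤ p.1 ∧ 2 ^ p.1 ≤ (wnd v p.1 p.2).card),
          (((univ : Finset (Fin n → Fin (2 ^ q))).filter
            (fun o => ∀ w ∈ wnd v p.1 p.2, w ∉ mile r o p.1)).card : ℝ) ≤
          ((2 ^ q : ℕ) : ℝ) ^ n * Real.exp (-(3 * q : ℕ)) := by
        rintro ⟨z, a⟩ hp
        simp only [mem_filter, mem_product, mem_range] at hp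
        obtain ⟨⟨hz, _⟩, hrz, hc⟩ := hp
        refine (card_miss r z (pow_dvd_pow 2 (by omega)) (by positivity) (wnd v z a)).trans ?_
        refine mul_le_mul_of_nonneg_left ?_ (by positivity)
        rw [Real.exp_le_exp]
        apply neg_le_neg
        rw [le_div_iff₀ (by positivity)]
        have h4 : (3 * q) * 2 ^ (z - r) ≤ (wnd v z a).card := by
          calc (3 * q) * 2 ^ (z - r) ≤ 2 ^ r * 2 ^ (z - r) := Nat.mul_le_mul_right _ hqr
            _ = 2 ^ z := by rw [← pow_add]; congr 1; omega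
            _ ≤ _ := hc
        exact_mod_cast h4
      refine (sum_le_sum h3).trans ?_
      rw [sum_const, nsmul_eq_mul]
      refine mul_le_mul_of_nonneg_right ?_ (by positivity)
      have h5 : ((range (q + 1) ×ˢ range n).filter
          (fun p => r ≤ p.1 ∧ 2 ^ p.1 ≤ (wnd v p.1 p.2).card)).card ≤ (q + 1) * n := by
        refine (card_filter_le _ _).trans ?_
        rw [card_product, card_range, card_range]
      exact_mod_cast h5
    have hO : Fintype.card (Fin n → Fin (2 ^ q)) = (2 ^ q) ^ n := by simp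
    rw [hO]
    have h6 : 2 * (((q + 1) * n : ℕ) * Real.exp (-(3 * q : ℕ))) ≤ 1 := by
      have h7 : (2 : ℝ) ≤ Real.exp 1 := by
        have := Real.add_one_le_exp (1 : ℝ)
        linarith
      have h8 : Real.exp (-(3 * q : ℕ)) ≤ (1 / 2 : ℝ) ^ (3 * q) := by
        have h9 : Real.exp (-(3 * q : ℕ)) = (Real.exp 1)⁻¹ ^ (3 * q) := by
          rw [inv_pow, ← Real.exp_nat_mul, mul_one, Real.exp_neg]
        rw [h9]
        refine pow_le_pow_left₀ (by positivity) ?_ _
        rw [one_div]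
        exact inv_anti₀ (by norm_num) h7
      have h10 : (((q + 1) * n : ℕ) : ℝ) ≤ 2 ^ (2 * q) := by
        have h11 : (q + 1) * n ≤ 2 ^ (2 * q) := by
          have h12 : q + 1 ≤ 2 ^ q := Nat.lt_two_pow_self
          calc (q + 1) * n ≤ 2 ^ q * 2 ^ q := Nat.mul_le_mul h12 hnq
            _ = 2 ^ (2 * q) := by rw [← pow_add]; congr 1; ring
        exact_mod_cast h11
      have h13 : (2 : ℝ) ^ (2 * q) * (1 / 2) ^ (3 * q) = (1 / 2) ^ q := by
        have : 3 * q = 2 * q + q := by ring
        rw [this, pow_add, ← mul_assoc, ← mul_pow]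
        norm_num
      have h14 : ((1 : ℝ) / 2) ^ q ≤ 1 / 2 := by
        calc ((1 : ℝ) / 2) ^ q ≤ (1 / 2) ^ 1 :=
              pow_le_pow_of_le_one (by norm_num) (by norm_num) hq1
          _ = 1 / 2 := pow_one _
      calc 2 * (((q + 1) * n : ℕ) * Real.exp (-(3 * q : ℕ)))
          ≤ 2 * (2 ^ (2 * q) * (1 / 2 : ℝ) ^ (3 * q)) := by
            refine mul_le_mul_of_nonneg_left ?_ (by norm_num)
            exact mul_le_mul h10 h8 (by positivity) (by positivity)
        _ ≤ 1 := by rw [h13]; linarith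
    have h15 : (2 : ℝ) * (((univ : Finset (Fin n → Fin (2 ^ q))).filter
        (fun o => ¬ good v o)).card : ℝ) ≤ ((2 ^ q : ℕ) : ℝ) ^ n := by
      have h16 : (0 : ℝ) ≤ ((2 ^ q : ℕ) : ℝ) ^ n := by positivity
      calc (2 : ℝ) * (((univ : Finset (Fin n → Fin (2 ^ q))).filter
            (fun o => ¬ good v o)).card : ℝ)
          ≤ 2 * (((q + 1) * n : ℕ) * (((2 ^ q : ℕ) : ℝ) ^ n * Real.exp (-(3 * q : ℕ)))) :=
            mul_le_mul_of_nonneg_left hcard (by norm_num)
        _ = (2 * (((q + 1) * n : ℕ) * Real.exp (-(3 * q : ℕ)))) * ((2 ^ q : ℕ) : ℝ) ^ n := by ring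
        _ ≤ 1 * ((2 ^ q : ℕ) : ℝ) ^ n := mul_le_mul_of_nonneg_right h6 h16
        _ = _ := one_mul _
    exact_mod_cast h15
  have hne : Nonempty (Fin n → Fin (2 ^ q)) := ⟨fun _ => ⟨0, by positivity⟩⟩
  obtain ⟨ws, h1, h2⟩ := Pool.Agent.Lib.Pe46137P.greedy good (q * n + 1) univ
    (fun v _ => hhalf v) (by
      rw [card_univ]
      simp only [Fintype.card_pi, Fintype.card_fin, prod_const, card_univ]
      calc n ^ n ≤ (2 ^ q) ^ n := Nat.pow_le_pow_left hnq n
        _ = 2 ^ (q * n) := by rw [← pow_mul]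
        _ < 2 ^ (q * n + 1) := Nat.pow_lt_pow_right (by norm_num) (by omega))
  exact ⟨ws, h1, fun v => h2 v (mem_univ _)⟩

end Pool.Agent.Lib.Pe46137Y
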