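import Pool.Agent.Lib.Pe46137Y.Search

/-!
One scale, abstractly.  The interval `(i,j)` is cut into pieces `[f r, e r]`, `1 ≤ r ≤ h`, possibly
empty (`f r = e r + 1`), with `e 0` the left end and `f (h+1)` the right end.  A nonempty piece has
a class `cl r`, a representative `ρ r` that may be used as pivot at cost `c (cl r)`, a weight `ω r`
and a budget `E r` that suffices for all intervals inside the piece.  The classes are treated in
decreasing order.
-/

namespace Pool.Agent.Lib.Pe46137Y

namespace StageAux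

theorem cuts {piv : ℕ → ℕ → ℕ → ℕ → Prop} (hm : MonoPiv piv) {i j X B u u' p p' : ℕ}
    (h1 : i ≤ u) (h2 : u ≤ p) (h3 : p < p') (h4 : p' ≤ u') (h5 : u' ≤ j)
    (hp : ∀ t, i < t → t < j → piv X i t j) (hL : u < p → Win piv B u p)
    (hM : Win piv B p p') (hR : p' < u' → Win piv B p' u') : Win piv (B + 2 * X) u u' := by
  have hR' : Win piv (B + X) p u' := by
    rcases h4.lt_or_eq with h | h
    · exact Win.step B X p p' u' h3 h
        (hm X X i p p' j u' le_rfl (h1.trans h2) h3 h h5 (hp p' (by omega) (by omega))) hM (hR h)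
    · rw [← h]
      exact hM.mono (by omega)
  rcases h2.lt_or_eq with h | h
  · exact Win.step' h (by omega : p < u')
      (hm X X i u p j u' le_rfl h1 h (by omega) h5 (hp p (by omega) (by omega)))
      ((hL h).mono (by omega : B ≤ B + X)) hR' (by omega)
  · rw [h]
    exact hR'.mono (by omega)

section

variable {h : ℕ} {f e : ℕ → ℕ}

theorem e_mono (hfe : ∀ r ≤ h, f (r + 1) = e r + 1) (hNe : ∀ r, 1 ≤ r → r ≤ h → f r ≤ e r + 1)
    {a b : ℕ} (hab : a ≤ b) (hb : b ≤ h) : e a ≤ e b := by
  induction b with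
  | zero =>
    have : a = 0 := by omega
    rw [this]
  | succ b ih =>
    rcases hab.lt_or_eq with h1 | h1
    · have h2 := ih (by omega) (by omega)
      have h3 := hfe b (by omega)
      have h4 := hNe (b + 1) (by omega) hb
      omega
    · rw [h1]

theorem e_lt_f (hfe : ∀ r ≤ h, f (r + 1) = e r + 1)
    (hNe : ∀ r, 1 ≤ r → r ≤ h → f r ≤ e r + 1)
    {a b : ℕ} (hab : a < b) (hb : b ≤ h + 1) : e a < f b := by
  obtain ⟨b', rfl⟩ : ∃ b', b = b' + 1 := ⟨b - 1, by omega⟩
  have h1 := e_mono hfe hNe (by omega : a ≤ b') (by omega)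
  have h2 := hfe b' (by omega)
  omega

theorem f_mono (hfe : ∀ r ≤ h, f (r + 1) = e r + 1)
    (hNe : ∀ r, 1 ≤ r → r ≤ h → f r ≤ e r + 1)
    {a b : ℕ} (ha : 1 ≤ a) (hab : a ≤ b) (hb : b ≤ h + 1) : f a ≤ f b := by
  rcases hab.lt_or_eq with h1 | h1
  · have h2 := hNe a ha (by omega)
    have h3 := e_lt_f hfe hNe h1 hb
    omega
  · rw [h1]

theorem all_empty (hfe : ∀ r ≤ h, f (r + 1) = e r + 1)
    (hNe : ∀ r, 1 ≤ r → r ≤ h → f r ≤ e r + 1)
    {a b : ℕ} (hab : a < b) (hb : b ≤ h + 1) (hem : ∀ r, a < r → r < b → ¬ f r ≤ e r) :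
    f b = e a + 1 := by
  induction b with
  | zero => omega
  | succ b ih =>
    rcases (Nat.lt_succ_iff.mp hab).lt_or_eq with h1 | h1
    · have h2 := ih h1 (by omega) fun r hr hr' => hem r hr (by omega)
      have h3 := hem b h1 (by omega)
      have h4 := hNe b (by omega) (by omega)
      have h5 := hfe b (by omega)
      omega
    · rw [h1]
      exact hfe b (by omega)

end

/-- Every element lies in at most two gap sets. -/
theorem sum_gap_le (X : Finset ℕ) (a b : ℕ) (ω : ℕ → ℕ) :
    ∑ x ∈ X.erase b, ∑ r ∈ (Finset.Ioo a b).filter (fun r => x ≤ r ∧ ∀ s ∈ X, x < s → r ≤ s),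
      ω r ≤ 2 * ∑ r ∈ Finset.Ioo a b, ω r := by
  classical
  have h1 : ∀ x ∈ X.erase b,
      ∑ r ∈ (Finset.Ioo a b).filter (fun r => x ≤ r ∧ ∀ s ∈ X, x < s → r ≤ s), ω r =
      ∑ r ∈ Finset.Ioo a b, if (x ≤ r ∧ ∀ s ∈ X, x < s → r ≤ s) then ω r else 0 :=
    fun x _ => Finset.sum_filter _ _
  rw [Finset.sum_congr rfl h1, Finset.sum_comm, Finset.mul_sum]
  refine Finset.sum_le_sum fun r _ => ?_
  rw [← Finset.sum_filter, Finset.sum_const, smul_eq_mul]
  refine Nat.mul_le_mul_right _ ?_
  by_contra hc
  push Not at hc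
  obtain ⟨x, y, z, hx, hy, hz, hxy, hxz, hyz⟩ := Finset.two_lt_card_iff.mp hc
  simp only [Finset.mem_filter, Finset.mem_erase] at hx hy hz
  -- sort the three
  obtain ⟨⟨_, hxX⟩, hxr, hx'⟩ := hx
  obtain ⟨⟨_, hyX⟩, hyr, hy'⟩ := hy
  obtain ⟨⟨_, hzX⟩, hzr, hz'⟩ := hz
  have a1 := hx' y hyX
  have a2 := hx' z hzX
  have a3 := hy' x hxX
  have a4 := hy' z hzX
  have a5 := hz' x hxX
  have a6 := hz' y hyX
  omega

end StageAux

open StageAux in
theorem stage {piv : ℕ → ℕ → ℕ → ℕ → Prop} (hm : MonoPiv piv) (h i j : ℕ)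
    (f e ρ ω E cl c : ℕ → ℕ) (X : ℕ)
    (hfe : ∀ r ≤ h, f (r + 1) = e r + 1) (hi : i ≤ e 0) (hj : f (h + 1) ≤ j)
    (hNe : ∀ r, 1 ≤ r → r ≤ h → f r ≤ e r + 1)
    (hρ : ∀ r, 1 ≤ r → r ≤ h → f r ≤ e r → f r ≤ ρ r ∧ ρ r ≤ e r)
    (hc : Antitone c)
    (hpρ : ∀ r, 1 ≤ r → r ≤ h → f r ≤ e r → piv (c (cl r)) i (ρ r) j)
    (hpX : ∀ t, i < t → t < j → piv X i t j)
    (hE : ∀ r, 1 ≤ r → r ≤ h → ∀ t t', f r ≤ t → t < t' → t' ≤ e r → Win piv (E r) t t')
    (hω : ∀ r, 1 ≤ r → r ≤ h → 0 < ω r) (q : ℕ) :
    ∀ a b g Bt, a < b → b ≤ h + 1 → (∀ r, a < r → r < b → f r ≤ e r → cl r < q) →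
      ∑ r ∈ Finset.Ioo a b, ω r ≤ 2 ^ g →
      (∀ r, a < r → r < b → f r ≤ e r →
        E r + c (cl r) * (g + 3 * q - Nat.log 2 (ω r)) + 2 * X * q ≤ Bt) →
      Win piv Bt (e a) (f b) := by
  classical
  induction q with
  | zero =>
    intro a b g Bt hab hb hcl _ _
    rw [all_empty hfe hNe hab hb fun r h1 h2 h3 => by simpa using hcl r h1 h2 h3]
    exact Win.arc Bt (e a)
  | succ q ih =>
    intro a b g Bt hab hb hcl hg hBt
    -- weights inside are at most 2 ^ g
    have hωg : ∀ r, a < r → r < b → ω r ≤ 2 ^ g := fun r h1 h2 =>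
      (Finset.single_le_sum (f := ω) (fun _ _ => Nat.zero_le _)
        (Finset.mem_Ioo.mpr ⟨h1, h2⟩)).trans hg
    by_cases hkey : ∃ r, a < r ∧ r < b ∧ f r ≤ e r ∧ cl r = q
    swap
    · -- no key
      refine ih a b g Bt hab hb (fun r h1 h2 h3 => ?_) hg fun r h1 h2 h3 => ?_
      · have h4 := hcl r h1 h2 h3
        have h5 : cl r ≠ q := fun h6 => hkey ⟨r, h1, h2, h3, h6⟩
        omega
      · refine le_trans ?_ (hBt r h1 h2 h3)
        have h4 : g + 3 * q - Nat.log 2 (ω r) ≤ g + 3 * (q + 1) - Nat.log 2 (ω r) := by omega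
        have h5 := Nat.mul_le_mul_left (c (cl r)) h4
        have h6 : 2 * X * q ≤ 2 * X * (q + 1) := Nat.mul_le_mul_left _ (by omega)
        omega
    · obtain ⟨r0, hr0a, hr0b, hr0e, hr0q⟩ := hkey
      -- the keys
      let key : ℕ → Prop := fun r => a < r ∧ r < b ∧ f r ≤ e r ∧ cl r = q
      let Xs : Finset ℕ := insert a (insert b ((Finset.Ioo a b).filter
        (fun r => f r ≤ e r ∧ cl r = q)))
      have hXs : ∀ x, x ∈ Xs ↔ x = a ∨ x = b ∨ key x := by
        intro x
        simp only [Xs, key, Finset.mem_insert, Finset.mem_filter, Finset.mem_Ioo]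
        tauto
      let u : ℕ → ℕ := fun x => if x = a then e a else if x = b then f b else ρ x
      have hua : u a = e a := by simp [u]
      have hub : u b = f b := by simp [u, hab.ne']
      have huk : ∀ x, key x → u x = ρ x := fun x hx => by
        simp [u, hx.1.ne', hx.2.1.ne]
      let gs : ℕ → Finset ℕ := fun x =>
        (Finset.Ioo a b).filter (fun r => x ≤ r ∧ ∀ s ∈ Xs, x < s → r ≤ s)
      let w : ℕ → ℕ := fun x => ∑ r ∈ gs x, ω r
      have hωw : ∀ x, ∀ r ∈ gs x, ω r ≤ w x := fun x r hr =>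
        Finset.single_le_sum (f := ω) (fun _ _ => Nat.zero_le _) hr
      have hgsab : ∀ x, ∀ r ∈ gs x, a < r ∧ r < b := fun x r hr =>
        Finset.mem_Ioo.mp (Finset.mem_filter.mp hr).1
      have hwg : ∀ x, w x ≤ 2 ^ g := fun x =>
        (Finset.sum_le_sum_of_subset (Finset.filter_subset _ _)).trans hg
      have hpos : ∀ r, a < r → r < b → 0 < ω r := fun r h1 h2 => hω r (by omega) (by omega)
      -- a key adjacent to every gap
      have hadj : ∀ x ∈ Xs, x < b → ∃ r ∈ gs x, key r := by
        intro x hx hxb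
        rcases (hXs x).mp hx with rfl | rfl | hk
        · -- the least key
          have hex : ∃ r, key r := ⟨r0, hr0a, hr0b, hr0e, hr0q⟩
          refine ⟨Nat.find hex, ?_, Nat.find_spec hex⟩
          simp only [gs, Finset.mem_filter, Finset.mem_Ioo]
          have h1 := Nat.find_spec hex
          refine ⟨⟨h1.1, h1.2.1⟩, h1.1.le, fun s hs hxs => ?_⟩
          rcases (hXs s).mp hs with rfl | rfl | hk
          · omega
          · exact h1.2.1.le
          · exact Nat.find_min' hex hk
        · omega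
        · refine ⟨x, ?_, hk⟩
          simp only [gs, Finset.mem_filter, Finset.mem_Ioo]
          exact ⟨⟨hk.1, hk.2.1⟩, le_rfl, fun s _ h => h.le⟩
      have hwpos : ∀ x ∈ Xs, x < b → 0 < w x := by
        intro x hx hxb
        obtain ⟨r, hr, hk⟩ := hadj x hx hxb
        exact (hpos r hk.1 hk.2.1).trans_le (hωw x r hr)
      -- position facts
      have huf : ∀ x ∈ Xs, a < x → f x ≤ u x := by
        intro x hx hax
        rcases (hXs x).mp hx with rfl | rfl | hk
        · omega
        · rw [hub]
        · rw [huk x hk]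
          exact (hρ x (by omega) (by omega) hk.2.2.1).1
      have hue : ∀ x ∈ Xs, x < b → u x ≤ e x := by
        intro x hx hxb
        rcases (hXs x).mp hx with rfl | rfl | hk
        · rw [hua]
        · omega
        · rw [huk x hk]
          exact (hρ x (by omega) (by omega) hk.2.2.1).2
      have hXab : ∀ x ∈ Xs, a ≤ x ∧ x ≤ b := by
        intro x hx
        rcases (hXs x).mp hx with rfl | rfl | hk
        · exact ⟨le_rfl, hab.le⟩
        · exact ⟨hab.le, le_rfl⟩
        · exact ⟨hk.1.le, hk.2.1.le⟩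
      have hu : ∀ x ∈ Xs, ∀ y ∈ Xs, x < y → u x < u y := by
        intro x hx y hy hxy
        have h1 := hue x hx (hxy.trans_le (hXab y hy).2)
        have h2 := huf y hy (lt_of_le_of_lt (hXab x hx).1 hxy)
        have h3 := e_lt_f hfe hNe hxy ((hXab y hy).2.trans hb)
        omega
      have hiu : i ≤ e a := hi.trans (e_mono hfe hNe (Nat.zero_le a) (by omega))
      have hju : f b ≤ j := (f_mono hfe hNe (by omega) hb le_rfl).trans hj
      have haX : a ∈ Xs := (hXs a).mpr (Or.inl rfl)
      have hbX : b ∈ Xs := (hXs b).mpr (Or.inr (Or.inl rfl))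
      -- budget facts
      have hlogw : ∀ x, Nat.log 2 (w x) ≤ g := fun x => by
        calc Nat.log 2 (w x) ≤ Nat.log 2 (2 ^ g) := Nat.log_mono_right (hwg x)
          _ = g := Nat.log_pow (by norm_num) g
      have hkeyB : ∀ x ∈ Xs, x < b → ∀ r ∈ gs x, key r →
          E r + c q * (g + 2 - Nat.log 2 (w x)) + 2 * X ≤ Bt := by
        intro x hx hxb r hr hk
        have h1 := hBt r hk.1 hk.2.1 hk.2.2.1
        rw [hk.2.2.2] at h1
        have h2 : Nat.log 2 (ω r) ≤ Nat.log 2 (w x) := Nat.log_mono_right (hωw x r hr)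
        have h3 : g + 2 - Nat.log 2 (w x) ≤ g + 3 * (q + 1) - Nat.log 2 (ω r) := by omega
        have h4 := Nat.mul_le_mul_left (c q) h3
        have h5 : 2 * X * 1 ≤ 2 * X * (q + 1) := Nat.mul_le_mul_left _ (by omega)
        omega
      rw [← hua, ← hub]
      refine search hm Xs u w (fun x => Bt - c q * (g + 2 - Nat.log 2 (w x))) (c q) a b haX hbX
        hXab hab hu ?_ hwpos ?_ (g + 1) Bt ?_ ?_
      · -- pivots
        intro x hx hax hxb
        rcases (hXs x).mp hx with rfl | rfl | hk
        · omega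
        · omega
        · have h1 := hpρ x (by omega) (by omega) hk.2.2.1
          rw [hk.2.2.2] at h1
          rw [huk x hk]
          refine hm (c q) (c q) i (u a) (ρ x) j (u b) le_rfl (by rw [hua]; exact hiu) ?_ ?_
            (by rw [hub]; exact hju) h1
          · rw [← huk x hk]; exact hu a haX x hx hax
          · rw [← huk x hk]; exact hu x hx b hbX hxb
      · -- gaps
        intro x hx y hy hxy hno
        have hxb : x < b := hxy.trans_le (hXab y hy).2
        have hay : a < y := lt_of_le_of_lt (hXab x hx).1 hxy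
        -- the open gap is inside the gap set
        have hsub : ∀ r, x < r → r < y → r ∈ gs x := by
          intro r h1 h2
          simp only [gs, Finset.mem_filter, Finset.mem_Ioo]
          refine ⟨⟨lt_of_le_of_lt (hXab x hx).1 h1, h2.trans_le (hXab y hy).2⟩, h1.le,
            fun s hs hxs => ?_⟩
          rcases hno s hs with h3 | h3
          · omega
          · omega
        have hyg : key y → y ∈ gs x := by
          intro hk
          simp only [gs, Finset.mem_filter, Finset.mem_Ioo]
          refine ⟨⟨hk.1, hk.2.1⟩, hxy.le, fun s hs hxs => ?_⟩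
          rcases hno s hs with h3 | h3
          · omega
          · exact h3
        have hxg : key x → x ∈ gs x := by
          intro hk
          simp only [gs, Finset.mem_filter, Finset.mem_Ioo]
          exact ⟨⟨hk.1, hk.2.1⟩, le_rfl, fun s _ h => h.le⟩
        obtain ⟨r1, hr1, hk1⟩ := hadj x hx hxb
        have hB1 := hkeyB x hx hxb r1 hr1 hk1
        set D := c q * (g + 2 - Nat.log 2 (w x)) with hD
        have hmid : Win piv (Bt - D - 2 * X) (e x) (f y) := by
          refine ih x y (Nat.log 2 (w x) + 1) (Bt - D - 2 * X) hxy ((hXab y hy).2.trans hb)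
            (fun r h1 h2 h3 => ?_) ?_ fun r h1 h2 h3 => ?_
          · have h4 := hgsab x r (hsub r h1 h2)
            have h5 := hcl r h4.1 h4.2 h3
            have h6 : cl r ≠ q := by
              intro h7
              have h8 : r ∈ Xs := (hXs r).mpr (Or.inr (Or.inr ⟨h4.1, h4.2, h3, h7⟩))
              rcases hno r h8 with h9 | h9 <;> omega
            omega
          · have h4 : ∑ r ∈ Finset.Ioo x y, ω r ≤ w x := by
              refine Finset.sum_le_sum_of_subset fun r hr => ?_
              rw [Finset.mem_Ioo] at hr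
              exact hsub r hr.1 hr.2
            exact h4.trans (Nat.lt_pow_succ_log_self (by norm_num) (w x)).le
          · have h4 := hgsab x r (hsub r h1 h2)
            have h5 := hBt r h4.1 h4.2 h3
            have h6 : c q ≤ c (cl r) := by
              have h7 := hcl r h4.1 h4.2 h3
              exact hc (by omega)
            have h7 : Nat.log 2 (ω r) ≤ Nat.log 2 (w x) :=
              Nat.log_mono_right (hωw x r (hsub r h1 h2))
            have h8 := hlogw x
            have h9 : D ≤ c (cl r) * (g + 2 - Nat.log 2 (w x)) := Nat.mul_le_mul_right _ h6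
            have h10 : c (cl r) * (g + 3 * (q + 1) - Nat.log 2 (ω r)) =
                c (cl r) * (Nat.log 2 (w x) + 1 + 3 * q - Nat.log 2 (ω r)) +
                c (cl r) * (g + 2 - Nat.log 2 (w x)) := by
              rw [← mul_add]
              congr 1
              omega
            have h11 : 2 * X * (q + 1) = 2 * X * q + 2 * X := by ring
            omega
        have hcut := cuts hm (i := i) (j := j) (X := X) (B := Bt - D - 2 * X)
          (u := u x) (u' := u y) (p := e x) (p' := f y) ?_ (hue x hx hxb)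
          (e_lt_f hfe hNe hxy ((hXab y hy).2.trans hb)) (huf y hy hay) ?_ hpX ?_ hmid ?_
        · have : Bt - D - 2 * X + 2 * X = Bt - D := by omega
          rw [this] at hcut
          exact hcut
        · have h1 : u a ≤ u x := by
            rcases (hXab x hx).1.lt_or_eq with h2 | h2
            · exact (hu a haX x hx h2).le
            · rw [h2]
          rw [hua] at h1
          omega
        · have h1 : u y ≤ u b := by
            rcases (hXab y hy).2.lt_or_eq with h2 | h2
            · exact (hu y hy b hbX h2).le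
            · rw [h2]
          rw [hub] at h1
          omega
        · intro hlt
          rcases (hXs x).mp hx with rfl | rfl | hk
          · rw [hua] at hlt; omega
          · omega
          · have h1 := hkeyB x hx hxb x (hxg hk) hk
            have h2 := (hρ x (by omega) (by omega) hk.2.2.1).1
            rw [huk x hk] at hlt ⊢
            exact (hE x (by omega) (by omega) (ρ x) (e x) h2 hlt le_rfl).mono (by omega)
        · intro hlt
          rcases (hXs y).mp hy with rfl | rfl | hk
          · omega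
          · rw [hub] at hlt; omega
          · have h1 := hkeyB x hx hxb y (hyg hk) hk
            have h2 := (hρ y (by omega) (by omega) hk.2.2.1).2
            rw [huk y hk] at hlt ⊢
            exact (hE y (by omega) (by omega) (f y) (ρ y) le_rfl hlt h2).mono (by omega)
      · -- total weight
        have h1 := sum_gap_le Xs a b ω
        have h2 : (2 : ℕ) ^ (g + 1) = 2 * 2 ^ g := by ring
        have h3 : ∑ x ∈ Xs.erase b, w x ≤ 2 * ∑ r ∈ Finset.Ioo a b, ω r := h1
        omega
      · -- budget
        intro x hx hxb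
        obtain ⟨r1, hr1, hk1⟩ := hadj x hx hxb
        have hB1 := hkeyB x hx hxb r1 hr1 hk1
        have h1 : g + 1 + 1 - Nat.log 2 (w x) = g + 2 - Nat.log 2 (w x) := by omega
        rw [h1]
        show Bt - c q * (g + 2 - Nat.log 2 (w x)) + c q * (g + 2 - Nat.log 2 (w x)) ≤ Bt
        omega

end Pool.Agent.Lib.Pe46137Y
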