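import Pool.Agent.Lib.Pe46137Y.Path
import Pool.Agent.Lib.Pe46137X.Build

/-!
The universal formula for sorted digraphs with milestones `S z`, `z < Z`.
-/

namespace Pool.Agent.Lib.Pe46137Y

open Pool.Agent.Lib.Pe46137 Pool.Agent.Lib.Pe46137X Finset

section

variable {n : ℕ} (Z : ℕ) (S : ℕ → Finset (Fin n))

/-- the milestones of kind `z` strictly between `a` and `b` -/
def cand (z : ℕ) (a b : Fin n) : Finset (Fin n) := (S z).filter fun w => a < w ∧ w < b

/-- the price of guessing one of them -/
def price (z : ℕ) (a b : Fin n) : ℕ := Nat.clog 2 (cand S z a b).card + Nat.clog 2 Z + 2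

open Classical in
/-- all milestones of kind `z` -/
noncomputable def branch (R : ℕ → Fin n → Fin n → Formula (Fin n)) (B : ℕ) (a b : Fin n) (z : ℕ) :
    Formula (Fin n) :=
  if z < Z ∧ price Z S z a b ≤ B then
    orTree (Nat.clog 2 (cand S z a b).card) fun j =>
      if h : j < (cand S z a b).card then
        Formula.and
          (R (B - price Z S z a b) a ((cand S z a b).equivFin.symm ⟨j, h⟩).1)
          (R (B - price Z S z a b) ((cand S z a b).equivFin.symm ⟨j, h⟩).1 b)
      else Formula.const false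
  else Formula.const false

/-- the universal formula with budget `B` (and fuel `k`) -/
noncomputable def univF : ℕ → ℕ → Fin n → Fin n → Formula (Fin n)
  | 0, _, a, b => Formula.arc a b
  | k + 1, B, a, b => if Nat.clog 2 Z + 2 ≤ B then
      Formula.or (Formula.arc a b) (orTree (Nat.clog 2 Z) (branch Z S (univF k) B a b))
      else Formula.arc a b

theorem branch_depth {R : ℕ → Fin n → Fin n → Formula (Fin n)}
    (hR : ∀ B a b, (R B a b).depth ≤ B) (B : ℕ) (a b : Fin n) (z : ℕ) :
    (branch Z S R B a b z).depth ≤ B - (Nat.clog 2 Z + 1) := by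
  unfold branch
  split_ifs with hz
  · have h4 : ∀ j, (if h : j < (cand S z a b).card then
        Formula.and
          (R (B - price Z S z a b) a ((cand S z a b).equivFin.symm ⟨j, h⟩).1)
          (R (B - price Z S z a b) ((cand S z a b).equivFin.symm ⟨j, h⟩).1 b)
        else Formula.const false).depth ≤ B - price Z S z a b + 1 := by
      intro j
      split_ifs with h
      · show max _ _ + 1 ≤ _
        exact Nat.succ_le_succ (max_le (hR _ _ _) (hR _ _ _))
      · simp [Formula.depth]
    refine (BuildAux.orTree_depth _ _ _ h4).trans ?_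
    have h5 := hz.2
    unfold price at h5 ⊢
    omega
  · simp [Formula.depth]

theorem univF_depth (k : ℕ) : ∀ (B : ℕ) (a b : Fin n), (univF Z S k B a b).depth ≤ B := by
  induction k with
  | zero => intro B a b; simp [univF, Formula.depth]
  | succ k ih =>
    intro B a b
    unfold univF
    split_ifs with hB
    · show max _ _ + 1 ≤ B
      have h3 := BuildAux.orTree_depth (Nat.clog 2 Z) (branch Z S (univF Z S k) B a b) _
        (branch_depth Z S ih B a b)
      have h6 : (Formula.arc a b).depth = 0 := rfl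
      rw [h6]
      omega
    · simp [Formula.depth]

theorem branch_eval {R : ℕ → Fin n → Fin n → Formula (Fin n)} {B : ℕ} {a b : Fin n} {z : ℕ}
    {G : Set (Fin n × Fin n)} :
    (branch Z S R B a b z).Eval G ↔ (z < Z ∧ price Z S z a b ≤ B) ∧
      ∃ w ∈ cand S z a b, (R (B - price Z S z a b) a w).Eval G ∧
        (R (B - price Z S z a b) w b).Eval G := by
  unfold branch
  split_ifs with hz
  · rw [BuildAux.orTree_eval]
    constructor
    · rintro ⟨j, _, hj⟩
      split_ifs at hj with h
      · exact ⟨hz, _, ((cand S z a b).equivFin.symm ⟨j, h⟩).2, hj.1, hj.2⟩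
      · exact absurd hj (by simp [Formula.Eval])
    · rintro ⟨_, w, hw, h1, h2⟩
      have hlt := ((cand S z a b).equivFin ⟨w, hw⟩).2
      refine ⟨(cand S z a b).equivFin ⟨w, hw⟩, hlt.trans_le (Nat.le_pow_clog (by norm_num) _), ?_⟩
      rw [dif_pos hlt]
      have : (cand S z a b).equivFin.symm ⟨((cand S z a b).equivFin ⟨w, hw⟩ : ℕ), hlt⟩ = ⟨w, hw⟩ := by
        rw [Fin.eta, Equiv.symm_apply_apply]
      rw [this]
      exact ⟨h1, h2⟩
  · constructor
    · intro h; exact absurd h (by simp [Formula.Eval])
    · rintro ⟨h, _⟩; exact absurd h hz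

/-- soundness -/
theorem univF_sound {G : Set (Fin n × Fin n)} (k : ℕ) : ∀ (B : ℕ) (a b : Fin n),
    (univF Z S k B a b).Eval G → Reachable G a b := by
  induction k with
  | zero =>
    intro B a b h
    exact Relation.ReflTransGen.single h
  | succ k ih =>
    intro B a b h
    unfold univF at h
    split_ifs at h with hB
    · rcases h with h | h
      · exact Relation.ReflTransGen.single h
      · rw [BuildAux.orTree_eval] at h
        obtain ⟨z, _, hz⟩ := h
        rw [branch_eval] at hz
        obtain ⟨_, w, _, h1, h2⟩ := hz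
        exact (ih _ _ _ h1).trans (ih _ _ _ h2)
    · exact Relation.ReflTransGen.single h

/-- pivots of a path `v` -/
def pivOf (m : ℕ) (v : ℕ → Fin n) (c i t j : ℕ) : Prop :=
  j ≤ m ∧ ∃ z < Z, v t ∈ S z ∧ price Z S z (v i) (v j) ≤ c

theorem pivOf_mono (m : ℕ) (v : ℕ → Fin n) (hv : ∀ t t', t < t' → t' ≤ m → v t < v t') :
    MonoPiv (pivOf Z S m v) := by
  intro c c' i i' t j j' hc hi hit htj hj ⟨hjm, z, hz, hvt, hp⟩
  refine ⟨hj.trans hjm, z, hz, hvt, le_trans ?_ (hp.trans hc)⟩
  have hle : ∀ t t', t ≤ t' → t' ≤ m → v t ≤ v t' := fun t t' h h' => by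
    rcases h.lt_or_eq with h1 | h1
    · exact (hv t t' h1 h').le
    · rw [h1]
  unfold price
  have h1 : (cand S z (v i') (v j')).card ≤ (cand S z (v i) (v j)).card := by
    refine card_le_card fun w hw => ?_
    simp only [cand, mem_filter] at hw ⊢
    exact ⟨hw.1, (hle i i' hi (by omega)).trans_lt hw.2.1, hw.2.2.trans_le (hle j' j hj hjm)⟩
  have h2 := Nat.clog_mono_right 2 h1
  omega

/-- completeness -/
theorem univF_complete {G : Set (Fin n × Fin n)} (m : ℕ) (v : ℕ → Fin n)
    (hv : ∀ t t', t < t' → t' ≤ m → v t < v t') (hG : ∀ t < m, (v t, v (t + 1)) ∈ G)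
    {B i j : ℕ} (h : Win (pivOf Z S m v) B i j) : ∀ B' k, j ≤ m → B ≤ B' → B' ≤ k →
      (univF Z S k B' (v i) (v j)).Eval G := by
  induction h with
  | arc B i =>
    intro B' k hjm _ _
    have h1 : (v i, v (i + 1)) ∈ G := hG i (by omega)
    cases k with
    | zero => exact h1
    | succ k =>
      unfold univF
      split_ifs
      · exact Or.inl h1
      · exact h1
  | step B c i t j hit htj hp _ _ ih1 ih2 =>
    intro B' k hjm hB hk
    obtain ⟨_, z, hz, hvt, hpr⟩ := hp
    have h2 : Nat.clog 2 Z + 2 ≤ price Z S z (v i) (v j) := by unfold price; omega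
    obtain ⟨k', rfl⟩ : ∃ k', k = k' + 1 := ⟨k - 1, by omega⟩
    unfold univF
    rw [if_pos (by omega)]
    right
    rw [BuildAux.orTree_eval]
    refine ⟨z, hz.trans_le (Nat.le_pow_clog (by norm_num) _), ?_⟩
    rw [branch_eval]
    refine ⟨⟨hz, by omega⟩, v t, ?_, ih1 _ _ (by omega) (by omega) (by omega),
      ih2 _ _ hjm (by omega) (by omega)⟩
    simp only [cand, mem_filter]
    exact ⟨hvt, hv i t hit (by omega), hv t j htj hjm⟩

end

end Pool.Agent.Lib.Pe46137Y
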