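import Pool.Agent.Lib.Pe46137Y.Univ
import Pool.Agent.Lib.Pe46137Y.SeedsY
import Pool.Agent.Lib.Pe46137Y.SortedLower

/-!
The upper bound for topologically sorted digraphs: a monotone formula of small depth.
-/

namespace Pool.Agent.Lib.Pe46137Y

open Pool.Agent.Lib.Pe46137 Pool.Agent.Lib.Pe46137X Finset

/-- cost of a guess beyond the logarithm of the density -/
def Lc (n : ℕ) : ℕ :=
  Nat.clog 2 (3 * Nat.clog 2 n) + 1 + Nat.clog 2 (Nat.clog 2 n + 1) + 2

/-- the depth of the formula -/
def depY (n ℓ δ κ : ℕ) : ℕ :=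
  Nat.clog 2 (Nat.clog 2 n * n + 1) + (fmax (κ * δ) (Nat.log 2 ℓ) + err δ (Lc n) κ)

theorem exists_sorted_formula {n : ℕ} (hn : 2 ≤ n) {s t : Fin n} (hst : s ≠ t) {ℓ : ℕ}
    {δ κ : ℕ} (hδ : 0 < δ) (hκ : n ≤ 2 ^ (κ * δ)) :
    ∃ F : Formula (Fin n), (∀ G, Sorted G → Within G s t ℓ → F.Eval G) ∧
      (∀ G, F.Eval G → Reachable G s t) ∧ F.depth ≤ depY n ℓ δ κ := by
  classical
  obtain ⟨q, hq⟩ : ∃ q, q = Nat.clog 2 n := ⟨_, rfl⟩
  obtain ⟨r, hr⟩ : ∃ r, r = Nat.clog 2 (3 * q) := ⟨_, rfl⟩
  have hnq : n ≤ 2 ^ q := by rw [hq]; exact Nat.le_pow_clog (by norm_num) n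
  have hq1 : 1 ≤ q := by rw [hq]; exact Nat.clog_pos (by norm_num) hn
  obtain ⟨ws, hws, hgood⟩ := exists_seeds (n := n) (q := q) (r := r) hq1 hnq
    (by rw [hr]; exact Nat.le_pow_clog (by norm_num) _)
  set B := fmax (κ * δ) (Nat.log 2 ℓ) + err δ (Lc n) κ with hB
  let F : Formula (Fin n) := orTree (Nat.clog 2 (q * n + 1)) fun j =>
    if h : j < ws.card then univF (q + 1) (mile r (ws.equivFin.symm ⟨j, h⟩).1) B B s t
    else Formula.const false
  refine ⟨F, ?_, ?_, ?_⟩
  · -- completeness
    rintro G hGs ⟨m, hmℓ, w, hw0, hwm, hwG⟩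
    have hm0 : 0 < m := by
      rcases Nat.eq_zero_or_pos m with h | h
      · subst h
        exact absurd (hw0.symm.trans hwm) hst
      · exact h
    have hstep : ∀ j < m, w j < w (j + 1) := fun j hj => hGs _ (hwG j hj)
    have hinc : ∀ a b, a < b → b ≤ m → w a < w b := by
      intro a b hab
      induction b with
      | zero => omega
      | succ b ih =>
        intro hb
        rcases (Nat.lt_succ_iff.mp hab).lt_or_eq with h | h
        · exact (ih h (by omega)).trans (hstep b (by omega))
        · subst h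
          exact hstep a (by omega)
    have hval : ∀ a, a ≤ m → a ≤ (w a : ℕ) := by
      intro a
      induction a with
      | zero => intro _; exact Nat.zero_le _
      | succ a ih =>
        intro ha
        have h1 := ih (by omega)
        have h2 := hstep a (by omega)
        rw [Fin.lt_def] at h2
        omega
    have hmn : m < n := (hval m le_rfl).trans_lt (w m).2
    obtain ⟨o, ho, hog⟩ := hgood (fun a => w a)
    set S : ℕ → Finset (Fin n) := fun z => mile r o z with hS
    have hwin : Win (pivOf (q + 1) S m w) B 0 m := by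
      refine path_win (pivOf_mono (q + 1) S m w hinc) (fun a => (w a : ℕ)) m
        (fun a b hab hb => by have := hinc a b hab hb; rwa [Fin.lt_def] at this)
        (fun z a => z ≤ q ∧ w a ∈ S z) (Lc n) δ hδ ?_ ?_ κ (Nat.log 2 ℓ) 0 m hm0 le_rfl ?_ ?_
      · intro z a haz
        have hz : z ≤ q := by
          have h1 : 2 ^ z < 2 ^ q := by omega
          exact ((Nat.pow_lt_pow_iff_right (by norm_num)).mp h1).le
        have hcard : 2 ^ z ≤ (wnd (fun a : Fin n => w a) z (a + 1)).card := by
          unfold wnd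
          rw [card_image_of_injOn]
          · have h2 : (Finset.Ico (a + 1) (a + 1 + 2 ^ z)).card ≤
                ((univ : Finset (Fin n)).filter
                  fun t : Fin n => a + 1 ≤ (t : ℕ) ∧ (t : ℕ) < a + 1 + 2 ^ z).card := by
              refine card_le_card_of_surjOn (fun t : Fin n => (t : ℕ)) ?_
              intro b hb
              simp only [coe_Ico, Set.mem_Ico] at hb
              refine ⟨⟨b, by omega⟩, ?_, rfl⟩
              simp only [coe_filter, mem_univ, true_and, Set.mem_ofPred_eq]
              exact hb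
            rw [Nat.card_Ico] at h2
            omega
          · intro x hx y hy hxy
            simp only [coe_filter, mem_univ, true_and, Set.mem_ofPred_eq] at hx hy
            rcases lt_trichotomy (x : ℕ) (y : ℕ) with h | h | h
            · exact absurd hxy (hinc x y h (by omega)).ne
            · exact Fin.ext h
            · exact absurd hxy (hinc y x h (by omega)).ne'
        have hpos : 0 < 2 ^ z := by positivity
        obtain ⟨w', hw', hmile⟩ := hog z hz (a + 1) (by omega) hcard
        simp only [wnd, mem_image, mem_filter, mem_univ, true_and] at hw'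
        obtain ⟨t', ht', rfl⟩ := hw'
        exact ⟨t', by omega, by omega, hz, hmile⟩
      · rintro K z i t' j hzK hit htj hjm hp ⟨hz, hm'⟩
        refine ⟨hjm, z, by omega, hm', ?_⟩
        unfold price
        have h1 : (cand S z (w i) (w j)).card ≤ 2 ^ (K - z + (r + 1)) :=
          mile_density o z K hzK (w i) (w j) hp
        have h2 : Nat.clog 2 (cand S z (w i) (w j)).card ≤ K - z + (r + 1) :=
          Nat.clog_le_of_le_pow h1
        have h3 : Lc n = r + 1 + Nat.clog 2 (q + 1) + 2 := by rw [hr, hq]; rfl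
        omega
      · have h1 := (w m).2
        have h2 : (w m : ℕ) < 2 ^ (κ * δ) := h1.trans_le hκ
        omega
      · have h1 : ℓ < 2 ^ (Nat.log 2 ℓ + 1) := Nat.lt_pow_succ_log_self (by norm_num) ℓ
        omega
    have hev := univF_complete (q + 1) S m w hinc hwG hwin B B le_rfl le_rfl le_rfl
    rw [hw0, hwm] at hev
    show (orTree _ _).Eval G
    rw [BuildAux.orTree_eval]
    have hlt := (ws.equivFin ⟨o, ho⟩).2
    refine ⟨ws.equivFin ⟨o, ho⟩, ?_, ?_⟩
    · have h1 : q * n + 1 ≤ 2 ^ Nat.clog 2 (q * n + 1) := Nat.le_pow_clog (by norm_num) _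
      omega
    · rw [dif_pos hlt]
      have h2 : ws.equivFin.symm ⟨(ws.equivFin ⟨o, ho⟩ : ℕ), hlt⟩ = ⟨o, ho⟩ := by
        rw [Fin.eta, Equiv.symm_apply_apply]
      rw [h2]
      exact hev
  · -- soundness
    intro G hG
    change (orTree _ _).Eval G at hG
    rw [BuildAux.orTree_eval] at hG
    obtain ⟨j, _, hj⟩ := hG
    split_ifs at hj with h
    · exact univF_sound _ _ _ _ _ _ hj
    · exact absurd hj (by simp [Formula.Eval])
  · -- depth
    have h1 := BuildAux.orTree_depth (Nat.clog 2 (q * n + 1)) (fun j =>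
      if h : j < ws.card then univF (q + 1) (mile r (ws.equivFin.symm ⟨j, h⟩).1) B B s t
      else Formula.const false) B (fun j => by
        split_ifs with h
        · exact univF_depth _ _ _ _ _ _
        · simp [Formula.depth])
    have h2 : depY n ℓ δ κ = Nat.clog 2 (q * n + 1) + B := by rw [hB, hq]; rfl
    show (orTree _ _).depth ≤ _
    omega

end Pool.Agent.Lib.Pe46137Y
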