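import Mathlib

/-!
The path game of the sorted half of SavitchConstant (MP_e46137_lc).  Path vertices are numbered
0,...,m in their order; `piv c i t j` says that the vertex number `t` may be guessed as pivot in
the interval from `i` to `j` at cost `c`; `Win piv B i j` says that the interval from `i` to `j`
can be verified with budget `B`.
-/

namespace Pool.Agent.Lib.Pe46137Y

/-- `Win piv B i j`: the path from number `i` to number `j` is verified with budget `B`. -/
inductive Win (piv : ℕ → ℕ → ℕ → ℕ → Prop) : ℕ → ℕ → ℕ → Prop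
  | arc (B i : ℕ) : Win piv B i (i + 1)
  | step (B c i t j : ℕ) : i < t → t < j → piv c i t j → Win piv B i t → Win piv B t j →
      Win piv (B + c) i j

/-- Pivots stay available in smaller intervals and at larger cost. -/
def MonoPiv (piv : ℕ → ℕ → ℕ → ℕ → Prop) : Prop :=
  ∀ c c' i i' t j j', c ≤ c' → i ≤ i' → i' < t → t < j' → j' ≤ j → piv c i t j → piv c' i' t j'

theorem Win.lt {piv : ℕ → ℕ → ℕ → ℕ → Prop} {B i j : ℕ} (h : Win piv B i j) : i < j := by
  induction h with
  | arc B i => exact Nat.lt_succ_self i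
  | step B c i t j hit htj _ _ _ _ _ => exact hit.trans htj

theorem Win.mono {piv : ℕ → ℕ → ℕ → ℕ → Prop} {B B' i j : ℕ} (h : Win piv B i j)
    (hB : B ≤ B') : Win piv B' i j := by
  induction h generalizing B' with
  | arc B i => exact Win.arc B' i
  | step B c i t j hit htj hp _ _ ih1 ih2 =>
    obtain ⟨d, rfl⟩ : ∃ d, B' = (B + d) + c := ⟨B' - (B + c), by omega⟩
    exact Win.step (B + d) c i t j hit htj hp (ih1 (by omega)) (ih2 (by omega))

theorem Win.step' {piv : ℕ → ℕ → ℕ → ℕ → Prop} {B B' c i t j : ℕ} (hit : i < t) (htj : t < j)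
    (hp : piv c i t j) (h1 : Win piv B i t) (h2 : Win piv B t j) (hB : B + c ≤ B') :
    Win piv B' i j :=
  (Win.step B c i t j hit htj hp h1 h2).mono hB

end Pool.Agent.Lib.Pe46137Y
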